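import Pool.Agent.Helper57.T5b.Win

/-!
# T5b (MP_12a1af): the size of the last window in terms of the state
-/

set_option autoImplicit false

namespace Pool.Agent.Helper57.T5b

open Finset Pool.Agent.Helper27.T4 Pool.Agent.Helper37.T5b
open Pool.Agent.Helper5.ET (bb era)
open Pool.Agent.Helper30.T5b (RT NL BP RT_pos isSz)
open Pool.Agent.Helper84.T5b Pool.Agent.Helper57.T5 Pool.Agent.Helper42.T5.Pr
open Pool.Agent.Helper22.HW (cN)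

/-- `m ≤ (1 + 1 / m) ^ (m ^ 2 + 1)` -/
theorem le_one_add_pow {m : ℕ} (hm : 0 < m) : (m : ℝ) ≤ (1 + 1 / (m : ℝ)) ^ (m ^ 2 + 1) := by
  have hmr : (0 : ℝ) < m := by exact_mod_cast hm
  have h1 := one_add_mul_le_pow (a := 1 / (m : ℝ)) (by
    have : (0 : ℝ) < 1 / m := by positivity
    linarith) (m ^ 2 + 1)
  refine le_trans ?_ h1
  push_cast
  have h2 : ((m : ℝ) ^ 2 + 1) * (1 / m) = m + 1 / m := by field_simp
  rw [h2]
  have : (0 : ℝ) < 1 / m := by positivity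
  linarith

/-- **upper bound for the last window** -/
theorem exists_SS_bL_le {m : ℕ} (hm : 2 ≤ m) : ∃ l0 : ℕ, ∀ l ≥ l0,
    (SS m (bL m (m ^ 2) l) : ℝ) ≤ (l : ℝ) ^ ((1 : ℝ) / m) := by
  have hm0 : 0 < m := by omega
  obtain ⟨l0, h0⟩ := Pool.Agent.Helper30.T5b.exists_late (k := m ^ 2) hm0 0 0
  refine ⟨l0, fun l hl => ?_⟩
  obtain ⟨-, h1, h2, -, -⟩ := h0 l hl
  have hk : m ^ 2 ≤ sv m (m ^ 2) (mL m (m ^ 2) l) := k_le_sv hm0 _ _
  have h3 := Pool.Agent.Helper30.T5b.SS_le_rpow (k := m ^ 2) (i := m ^ 2) hm h1 h2 hk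
  have h4 : bL m (m ^ 2) l ≤ sv m (m ^ 2) (mL m (m ^ 2) l) - m ^ 2 := by
    have := (dv_le_sv m (m ^ 2) (mL m (m ^ 2) l)).1
    unfold bL
    omega
  have h5 : (SS m (bL m (m ^ 2) l) : ℝ) ≤ (SS m (sv m (m ^ 2) (mL m (m ^ 2) l) - m ^ 2) : ℝ) := by
    exact_mod_cast SS_mono m h4
  have hb0 := bb_ge_pow 0
  have hy1 : 1 ≤ mL m (m ^ 2) l := by
    have h1' : bb 0 ≤ mL m (m ^ 2) l := h1
    omega
  have hyl : mL m (m ^ 2) l ≤ l := Pool.Agent.Helper27.T5b.l1_le _ _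
  have hmr : (0 : ℝ) < m := by exact_mod_cast hm0
  have hpow := le_one_add_pow hm0
  have h6 : (((1 + 1 / (m : ℝ)) ^ (m ^ 2 + 1))⁻¹) ≤ (1 : ℝ) / m := by
    have h7 := inv_anti₀ hmr hpow
    rwa [← one_div (m : ℝ)] at h7
  have hy1r : (1 : ℝ) ≤ ((mL m (m ^ 2) l : ℕ) : ℝ) := by exact_mod_cast hy1
  have hylr : ((mL m (m ^ 2) l : ℕ) : ℝ) ≤ (l : ℝ) := by exact_mod_cast hyl
  calc (SS m (bL m (m ^ 2) l) : ℝ) ≤ _ := h5
    _ ≤ ((mL m (m ^ 2) l : ℕ) : ℝ) ^ (((1 + 1 / (m : ℝ)) ^ (m ^ 2 + 1))⁻¹) := h3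
    _ ≤ ((mL m (m ^ 2) l : ℕ) : ℝ) ^ ((1 : ℝ) / m) := Real.rpow_le_rpow_of_exponent_le hy1r h6
    _ ≤ _ := Real.rpow_le_rpow (by linarith) hylr (by positivity)

/-- **lower bound for the last window** -/
theorem exists_le_SS_bL {m : ℕ} (hm : 2 ≤ m) (k : ℕ) : ∃ (c0 : ℝ) (l0 : ℕ), 0 < c0 ∧ ∀ l ≥ l0,
    (l : ℝ) ^ c0 ≤ (SS m (bL m k l) : ℝ) := by
  have hm0 : 0 < m := by omega
  obtain ⟨l0, h0⟩ := Pool.Agent.Helper30.T5b.exists_late (k := k) hm0 0 0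
  set x : ℝ := 1 + 1 / (m : ℝ) + 1 / (400 * (m : ℝ) ^ 2) with hx
  have hmr : (0 : ℝ) < m := by exact_mod_cast hm0
  have hx1 : 1 ≤ x := by
    have h1 : (0 : ℝ) < 1 / m := by positivity
    have h2 : (0 : ℝ) < 1 / (400 * (m : ℝ) ^ 2) := by positivity
    rw [hx]
    linarith
  have hB1 : 1 ≤ x ^ (k + 3) := one_le_pow₀ hx1
  refine ⟨(x ^ (k + 3) + 1)⁻¹, l0, by positivity, fun l hl => ?_⟩
  obtain ⟨-, h1, h2, -, h3⟩ := h0 l hl
  have h1' : bb 0 ≤ mL m k l := h1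
  have h4 := Pool.Agent.Helper30.T5b.lt_SS hm0 k h1'
  have h5 := (dv_le_sv m k (mL m k l)).2
  have hkd := k_le_dv hm0 k (mL m k l)
  set b := bL m k l with hb
  obtain ⟨d, hd, hdk⟩ : ∃ d, sv m k (mL m k l) + 2 = b + d ∧ d ≤ k + 3 := by
    refine ⟨sv m k (mL m k l) + 2 - b, ?_, ?_⟩
    · have := (dv_le_sv m k (mL m k l)).1
      rw [hb]
      unfold bL
      omega
    · rw [hb]
      unfold bL
      omega
  rw [hd] at h4
  have h6 := (isSz hm).add_le_real b d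
  have h7 := (isSz hm).ge_real b
  have ha0 : (0 : ℝ) ≤ aa m b := Nat.cast_nonneg _
  have h8 : (aa m (b + d) : ℝ) ≤ aa m b * x ^ (k + 3) := by
    refine h6.trans (mul_le_mul_of_nonneg_left ?_ ha0)
    exact pow_le_pow_right₀ hx1 hdk
  have h9 : (3 : ℝ) ≤ aa m b := by
    have : (400 : ℝ) * m ^ 2 ≤ aa m b := h7
    have h10 : (1 : ℝ) ≤ m := by exact_mod_cast hm0
    nlinarith
  -- `l ≤ 2 ^ (aa (b + d) + 3)`
  have h10 : l ≤ 2 ^ (aa m (b + d) + 3) := by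
    have h11 : l ≤ 2 * mL m k l := by
      have h3' : 1000 * l ≤ 1001 * mL m k l := h3
      omega
    have h12 : 2 ^ (aa m (b + d) + 3) = 8 * SS m (b + d) := by
      unfold SS
      rw [pow_add]
      ring
    rw [h12]
    omega
  have h11 : (l : ℝ) ≤ (2 : ℝ) ^ ((aa m b : ℝ) * (x ^ (k + 3) + 1)) := by
    calc (l : ℝ) ≤ (2 : ℝ) ^ (aa m (b + d) + 3) := by exact_mod_cast h10
      _ = (2 : ℝ) ^ ((aa m (b + d) : ℝ) + 3) := by
          rw [← Real.rpow_natCast]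
          push_cast
          rfl
      _ ≤ _ := by
          apply Real.rpow_le_rpow_of_exponent_le (by norm_num)
          nlinarith
  have hpos : (0 : ℝ) < x ^ (k + 3) + 1 := by positivity
  have h12 := Real.rpow_le_rpow (Nat.cast_nonneg l) h11 (inv_nonneg.2 hpos.le)
  refine h12.trans (le_of_eq ?_)
  rw [← Real.rpow_mul (by norm_num), mul_assoc, mul_inv_cancel₀ hpos.ne', mul_one,
    Real.rpow_natCast]
  unfold SS
  push_cast
  rfl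

/-- **PairOK from a bound in terms of the last window** -/
theorem pairOK_of_last {m : ℕ} (hm : 2 ≤ m) {P : ℕ → ℕ → Prop}
    {Ct : ℕ → ℕ → (Key → ℕ) → ℕ → Prop} {C m' : ℝ} (hC : 0 ≤ C) (hm' : 0 ≤ m') {l0 : ℕ}
    (h : ∀ l l', l0 ≤ l' → l' ≤ l → P l' l →
      ∀ K : Finset Key, keysOf m (m ^ 2) l ⊆ K → keysOf m (m ^ 2) l' ⊆ K →
      PrLe (Mk m (m ^ 2)) K (fun w => ∃ c : ℕ, Ct l l' w c ∧
        C * (SS m (bL m (m ^ 2) l) : ℝ) < (c : ℝ))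
        (m' * Real.exp (-(SS m (bL m (m ^ 2) l) : ℝ)))) : PairOK m P Ct 1 := by
  obtain ⟨l1, h1⟩ := exists_SS_bL_le hm
  obtain ⟨c0, l2, hc0, h2⟩ := exists_le_SS_bL hm (m ^ 2)
  refine ⟨l0 + l1 + l2, C, c0, m', hC, hc0, hm', fun l l' hl' hll hP K hK hK' => ?_⟩
  refine PrLe_mono (fun r _ hw => ?_) ?_ (h l l' (by omega) hll hP K hK hK')
  · obtain ⟨c, hc, hlt⟩ := hw
    refine ⟨c, hc, lt_of_le_of_lt ?_ hlt⟩
    have h3 := h1 l (by omega)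
    refine mul_le_mul_of_nonneg_left ?_ hC
    rw [Nat.cast_one]
    exact h3
  · refine mul_le_mul_of_nonneg_left (Real.exp_le_exp.2 (neg_le_neg ?_)) hm'
    exact h2 l (by omega)

end Pool.Agent.Helper57.T5b
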