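import Pool.Agent.Helper1.T5b.ZDefs
import Pool.Agent.Helper39.T5b.ZLab
import Pool.Agent.Helper63.T5b.NumB

/-!
# T5b (MP_12a1af), lines 6 and 7, Z0: the number of static levels; the pairs of the lines
-/

set_option autoImplicit false

namespace Pool.Agent.Helper57.T5b

open Pool.Agent.Helper37.T5b Pool.Agent.Helper84.T5b
open Pool.Agent.Helper30.T5b (ez PZ PZ_mul PZ_pos PZ_lt dist_of_common two_jumps lt_ez_sub
  ez_sub_le)
open Pool.Agent.Helper22.NEARb (wW hb hb_pos hb_spec lt_hb)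
open Pool.Agent.Helper1.T5b
open Pool.Agent.Helper63.T5b (wW_step)

variable {m k : ℕ}

/-- the jumps of the fronts numbers `1`, `2` -/
theorem DZ.two (hm : 0 < m) {l' l : ℕ} (h : DZ m k l' l) (h2 : 2 ≤ rL m k l) :
    wW m k l 2 < 1024 * (l - l') := by
  have hs : sL m k l' = sL m k l := h.same
  have h1 := h.jump 1 le_rfl (by omega)
  have h3 := h.jump 2 (by omega) h2
  unfold ef at h1 h3
  rw [hs] at h1 h3
  have h4 := Pool.Agent.Helper27.T5b.rL_bounds hm k l
  have h5 := two_jumps hm (show sL m k l - 2 < sL m k l - 1 by omega) h.le h3 h1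
  have h6 := PZ_mul hm (sL m k l - 2)
  unfold wW
  omega

/-- **Z0** -/
theorem hzS (hm : 2 ≤ m) (hk : 3 ≤ k) : HzS m k := by
  have hm0 : 0 < m := by omega
  obtain ⟨l0, h0⟩ := Pool.Agent.Helper30.T5b.exists_late (k := k) hm0 0 0
  refine ⟨l0, fun l' l hl' h => ?_⟩
  obtain ⟨_, a2, a3, _, _⟩ := h0 l' hl'
  have hs : sL m k l' = sL m k l := h.same
  have hb := h.ble
  have h4 := Pool.Agent.Helper27.T5b.rL_bounds hm0 k l
  have h4' := Pool.Agent.Helper27.T5b.rL_bounds hm0 k l'
  have hlt : l' < l := by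
    rcases Nat.lt_or_ge l' l with h1 | h1
    · exact h1
    · exfalso
      have e : l' = l := le_antisymm h.le h1
      exact h.jump 1 le_rfl (by omega) (by rw [e])
  have h5 := DZ.two hm0 h (by omega)
  have h6 := wW_step hm0 k l (i := 2) (by omega)
  have e3 : 2 + 1 = 3 := rfl
  rw [e3] at h6
  have h7 : 7 * wW m k l 3 ≤ 20 * (l - l') := by omega
  have hz3 : hz m k l' l ≤ 3 := by
    by_contra hc
    have h8 := lt_hb (m := m) (k := k) (t := 0) (l' := l') (l := l) (h := 3) (by omega)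
      (by unfold hz at hc; omega)
    rw [Nat.zero_add] at h8
    omega
  have hz1 : 1 ≤ hz m k l' l := hb_pos m k 0 l' l
  refine ⟨hlt, hz3, by omega, by omega, ?_, ?_, ?_⟩
  · have h8 := hb_spec m k 0 l' l
    rw [Nat.zero_add] at h8
    rcases h8 with h8 | h8
    · exact h8
    · have e : hz m k l' l = 3 := by
        have e1 : hz m k l' l = Pool.Agent.Helper22.NEARb.hb m k 0 l' l := rfl
        omega
      rw [e]
      exact h7
  · intro r hr
    rcases Nat.eq_zero_or_pos r with h9 | h9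
    · rw [h9]
      exact h.short
    · have h8 := lt_hb (m := m) (k := k) (t := 0) (l' := l') (l := l) (h := r) h9 hr
      rw [Nat.zero_add] at h8
      exact h8.1
  · exact Pool.Agent.Helper39.T5b.close_of_near hm0 h.le a2 a3 h.near

/-- the last dropped level is monotone -/
theorem bL_mono (hm : 0 < m) (k : ℕ) {l' l : ℕ} (hl : l' ≤ l) : bL m k l' ≤ bL m k l :=
  Nat.sub_le_sub_right (dv_mono hm k (Pool.Agent.Helper27.T5b.l1_mono _ hl)) k

/-- the pairs of the line 6 -/
theorem DZ.of_inj (hm : 0 < m) {l' l : ℕ} (hl : l' ≤ l) (h : CaseInj m k l' l) :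
    DZ m k l' l := by
  have hb := bL_mono hm k hl
  obtain ⟨⟨h1, h2⟩, h3, h4⟩ := h
  have hs : sL m k l' = sL m k l := h3
  have h5 := Pool.Agent.Helper27.T5b.rL_bounds hm k l
  refine ⟨hl, h1, h3, hb, fun i hi1 hi2 he => ?_, ?_⟩
  · refine h2 (sL m k l - i) ⟨?_, by omega, ?_⟩
    · rw [max_eq_right hb]
      omega
    · unfold ef at he
      rw [hs] at he
      exact he
  · have h6 := ez_sub_le hm (sL m k l' - 0) l'
    have h7 : ef m k l' 0 = ez m (sL m k l' - 0) l' := rfl
    rw [h7] at h4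
    have h8 := SS_pos m (sL m k l' - 0)
    have h9 : wW m k l 0 = SS m (sL m k l' - 0) := by
      unfold wW
      rw [hs]
    rw [h9]
    omega

/-- the pairs of the line 7 -/
theorem DZ.of_two (hm : 0 < m) {l' l : ℕ} (hl : l' ≤ l) (h : CaseTwo m k l' l) :
    DZ m k l' l := by
  have hb := bL_mono hm k hl
  obtain ⟨h1, h3, h4, h5⟩ := h
  have hs : sL m k l' = sL m k l := h3
  have h6 := Pool.Agent.Helper27.T5b.rL_bounds hm k l
  refine ⟨hl, h1, h3, hb, fun i hi1 hi2 he => ?_, h5⟩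
  unfold ef at he
  rw [hs] at he
  have h7 := dist_of_common hm hl he
  have h8 := lt_ez_sub hm (sL m k l' - 0) l'
  have h9 : ef m k l' 0 = ez m (sL m k l' - 0) l' := rfl
  rw [h9] at h4
  rw [Nat.sub_zero, hs] at h4 h8
  have h10 := PZ_mul hm (sL m k l)
  have h11 := PZ_lt hm (show sL m k l - i < sL m k l by omega)
  have h12 : PZ m (sL m k l - i) ≤ 2 ^ 200 * PZ m (sL m k l - i) :=
    Nat.le_mul_of_pos_left _ (by positivity)
  omega

end Pool.Agent.Helper57.T5b
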