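import Pool.Agent.Helper57.T5.BotClsNum
import Pool.Agent.Helper84.T5b.Pair
import Pool.Agent.Helper27.T5b.Range

/-!
# T5b (MP_12a1af): the random windows of one or two states
-/

set_option autoImplicit false

namespace Pool.Agent.Helper57.T5b

open Finset Pool.Agent.Helper27.T4 Pool.Agent.Helper37.T5b
open Pool.Agent.Helper5.ET (bb era)
open Pool.Agent.Helper30.T5b (RT NL BP RT_pos)
open Pool.Agent.Helper84.T5b Pool.Agent.Helper57.T5 Pool.Agent.Helper42.T5.Pr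
open Pool.Agent.Helper22.HW (cN)
open Pool.Agent.Helper50.T5 (VW lev)

/-! ## keys -/

/-- keys of the windows of two states -/
def kb2 (l l' : ℕ) (s : Bool) (L b : ℕ) : Key := Key.V (cond s l' l) L b

/-- `K` contains the keys of the random window of the state `l` -/
def BKb (m k l : ℕ) (K : Finset Key) : Prop :=
  ∀ v < 16 * RT m k (bL m k l), Key.V l (lev v) (v / 2 ^ lev v) ∈ K

theorem BKb.mono {m k l : ℕ} {K K' : Finset Key} (h : BKb m k l K) (hK : K ⊆ K') : BKb m k l K' :=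
  fun v hv => hK (h v hv)

theorem RT_le_NL {m k l : ℕ} (hm : 0 < m) (hl : bb 0 ≤ mL m k l) :
    RT m k (bL m k l) ≤ NL m k l := by
  rw [← Pool.Agent.Helper27.T5b.Un_mul_RT hm hl]
  exact Nat.le_mul_of_pos_left _ (Pool.Agent.Helper27.T5b.Un_pos m k l)

theorem vkey_mem {m k l : ℕ} (hm : 0 < m) (hl : bb 0 ≤ mL m k l) {v : ℕ}
    (hv : v < 16 * RT m k (bL m k l)) : Key.V l (lev v) (v / 2 ^ lev v) ∈ keysOf m k l := by
  have h1 := RT_le_NL hm hl
  have h2 : v < Bd m k l := by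
    unfold Bd
    omega
  unfold keysOf
  refine mem_union_right _ ?_
  rw [mem_image]
  refine ⟨(lev v, v / 2 ^ lev v), ?_, rfl⟩
  rw [mem_product, mem_range, mem_range]
  refine ⟨lt_of_le_of_lt ?_ h2, lt_of_le_of_lt (Nat.div_le_self _ _) h2⟩
  unfold lev
  exact Nat.log_le_self 4 v

theorem BKb_of {m k l : ℕ} (hm : 0 < m) (hl : bb 0 ≤ mL m k l) {K : Finset Key}
    (hK : keysOf m k l ⊆ K) : BKb m k l K :=
  fun _ hv => hK (vkey_mem hm hl hv)

/-- two different states -/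
theorem winD_two {m k l l' : ℕ} (hl : l' ≠ l) {K : Finset Key} (hK : BKb m k l K)
    (hK' : BKb m k l' K) : WinD (Mk m k) K
      (fun s => cond s (RT m k (bL m k l')) (RT m k (bL m k l)))
      (fun s => cond s (16 * RT m k (bL m k l')) (16 * RT m k (bL m k l))) (kb2 l l') := by
  refine ⟨?_, fun s L b => rfl, ?_⟩
  · intro s L b s' L' b' h
    unfold kb2 at h
    rw [Key.V.injEq] at h
    obtain ⟨h1, h2, h3⟩ := h
    refine ⟨?_, h2, h3⟩
    cases s <;> cases s' <;> simp only [cond_true, cond_false] at h1 <;>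
      first
      | rfl
      | exact absurd h1 hl
      | exact absurd h1.symm hl
  · intro s v hv
    rw [mem_Ico] at hv
    cases s
    · exact hK v hv.2
    · exact hK' v hv.2

/-- one state -/
theorem winD_one {m k l : ℕ} {K : Finset Key} (hK : BKb m k l K) :
    WinD (Mk m k) K (fun s => cond s 0 (RT m k (bL m k l)))
      (fun s => cond s 0 (16 * RT m k (bL m k l))) (kb2 l (l + 1)) := by
  refine ⟨?_, fun s L b => rfl, ?_⟩
  · intro s L b s' L' b' h
    unfold kb2 at h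
    rw [Key.V.injEq] at h
    obtain ⟨h1, h2, h3⟩ := h
    refine ⟨?_, h2, h3⟩
    cases s <;> cases s' <;> simp only [cond_true, cond_false] at h1 <;>
      first
      | rfl
      | omega
  · intro s v hv
    rw [mem_Ico] at hv
    cases s
    · exact hK v hv.2
    · exact absurd hv.2 (by simp)

/-! ## numbers -/

/-- a quarter of the window -/
def AQ (m b : ℕ) : ℕ := (10 ^ 6) ^ (SS m b / 4)

theorem AQ_pos (m b : ℕ) : 0 < AQ m b := by unfold AQ; positivity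

theorem four_dvd_SS {m : ℕ} (hm : 0 < m) (b : ℕ) : 4 ∣ SS m b :=
  dvd_trans (Dvd.intro (2 ^ 248) (by norm_num)) (dvd_SS hm b)

theorem AQ_four {m : ℕ} (hm : 0 < m) (b : ℕ) : AQ m b ^ 4 = (10 ^ 6) ^ SS m b := by
  unfold AQ
  rw [← pow_mul]
  congr 1
  exact Nat.div_mul_cancel (four_dvd_SS hm b)

theorem RT_le_AQ {m : ℕ} (hm : 0 < m) (k b : ℕ) : RT m k b ≤ AQ m b ^ 4 := by
  rw [AQ_four hm]
  exact Pool.Agent.Helper30.T5b.RT_le hm k b

theorem exists_AQ_le {m : ℕ} (hm : 0 < m) (k : ℕ) : ∃ t0, ∀ t ≥ t0, AQ m t ^ 3 ≤ RT m k t := by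
  obtain ⟨t0, h⟩ := Pool.Agent.Helper30.T5b.exists_pow_le_RT hm k
  refine ⟨t0, fun t ht => ?_⟩
  unfold AQ
  rw [← pow_mul]
  refine h t ht _ ?_
  have := Nat.div_mul_cancel (four_dvd_SS hm t)
  omega

theorem AQ_ge {m : ℕ} (hm : 0 < m) (b : ℕ) : 10 ^ 48 ≤ AQ m b := by
  unfold AQ
  have h1 := SS_ge hm b
  have h2 : (2 : ℕ) ^ 5 ≤ 2 ^ 250 := Nat.pow_le_pow_right (by norm_num) (by norm_num)
  rw [← pow_mul]
  exact Nat.pow_le_pow_right (by norm_num) (by omega)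

/-- **the bottom bound for two windows of the same size, arbitrary class maps** -/
theorem bot_win {m : ℕ} (hm : 0 < m) (k : ℕ) (μ0 : ℝ) (hμ0 : 0 ≤ μ0) : ∃ l0 : ℕ,
    ∀ l l' : ℕ, l0 ≤ l' → l' < l → bL m k l' = bL m k l →
    ∀ K : Finset Key, BKb m k l K → BKb m k l' K → ∀ {q D I M : ℕ}, 0 < M → 0 < q → 0 < D →
    D ≤ AQ m (bL m k l) → q ≤ RT m k (bL m k l) → 16 * (I : ℝ) ≤ μ0 * Real.sqrt q →
    ∀ {C : Type} (J : Finset C) (cl : C → ℕ → ℕ) (κ₂ N : C → ℕ) {κ₀ c : ℕ},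
    (∀ c ∈ J, ∀ x, ((range I).filter (fun i => cl c i % D = x)).card ≤ κ₀) →
    J.card ≤ AQ m (bL m k l) ^ c →
    PrLe (Mk m k) K (fun w => ∃ x ∈ J, (30 * κ₀ + 1) * ((c + 1) * SS m (bL m k l)) <
        cN ((Vw m k l w).image (fun v => M * (q * v))) ((Vw m k l' w).image (fun v => M * v))
          I M D (cl x) (κ₂ x) (M * N x))
      (2 * Real.exp (-(SS m (bL m k l) : ℝ))) := by
  obtain ⟨t1, h1⟩ := exists_AQ_le hm k
  obtain ⟨C2, hC2⟩ : ∃ C2 : ℕ, 3 * 10 ^ 6 * μ0 ≤ C2 := exists_nat_ge _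
  obtain ⟨l1, h2⟩ := Pool.Agent.Helper27.T5b.exists_bL hm k (t1 + C2)
  refine ⟨l1, fun l l' hl' hll hb K hK hK' q D I M hM hq hD hDA hqR hI C J cl κ₂ N κ₀ c hκ hJ => ?_⟩
  obtain ⟨-, h3⟩ := h2 l (by omega)
  have h4 := h1 (bL m k l) (by omega)
  have h5 := RT_le_AQ hm k (bL m k l)
  have h6 := SS_ge hm (bL m k l)
  have h7 : (2 : ℕ) ^ 5 ≤ 2 ^ 250 := Nat.pow_le_pow_right (by norm_num) (by norm_num)
  have h8 := Pool.Agent.Helper27.T5b.exists_SS_ge hm C2 (bL m k l) (by omega)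
  exact bot_cN_num2 (fun q => Mk_pos m k q) (winD_two (ne_of_lt hll) hK hK') (A := AQ m (bL m k l))
    (S := SS m (bL m k l)) rfl (four_dvd_SS hm _) (by omega)
    (fun s => by
      cases s
      · exact h4
      · show _ ≤ RT m k (bL m k l')
        rw [hb]
        exact h4)
    (fun s => by
      cases s
      · exact Nat.mul_le_mul_left _ h5
      · show 16 * RT m k (bL m k l') ≤ _
        rw [hb]
        exact Nat.mul_le_mul_left _ h5)
    hM hq hD hDA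
    (by
      show q ≤ RT m k (bL m k l')
      rw [hb]
      exact hqR)
    hμ0 hI (hC2.trans (by exact_mod_cast h8)) J cl κ₂ N hκ hJ

/-! ## one window -/

/-- one window: few representations -/
theorem reps_one {m : ℕ} (hm : 0 < m) (k : ℕ) : ∃ l0 : ℕ, ∀ l, l0 ≤ l →
    ∀ K : Finset Key, BKb m k l K →
    PrLe (Mk m k) K (fun w => ∃ n, 100 * SS m (bL m k l) < (reps (Vw m k l w) n).card)
      (2 * Real.exp (-(SS m (bL m k l) : ℝ))) := by
  obtain ⟨C2, hC2⟩ : ∃ C2 : ℕ, 48 * 10 ^ 6 ≤ C2 := ⟨48 * 10 ^ 6, le_rfl⟩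
  obtain ⟨l1, h2⟩ := Pool.Agent.Helper27.T5b.exists_bL hm k C2
  refine ⟨l1, fun l hl K hK => ?_⟩
  obtain ⟨-, h3⟩ := h2 l hl
  have h8 := Pool.Agent.Helper27.T5b.exists_SS_ge hm C2 (bL m k l) h3
  have h9 := RT_pos m k (bL m k l)
  set S := SS m (bL m k l) with hS
  have h4 := bot_same (fun q => Mk_pos m k q) (winD_one (m := m) (k := k) hK)
    (show 1 ≤ RT m k (bL m k l) from h9) (11 * S)
  refine PrLe_mono (fun r _ hw => ?_) ?_ h4
  · obtain ⟨n, hn⟩ := hw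
    refine ⟨n, lt_of_le_of_lt ?_ hn⟩
    omega
  · have hf := fact_tail_mu 11 S (μ0 := 16) (by norm_num) (by omega) (by
      have : (48 * 10 ^ 6 : ℝ) ≤ ((11 * S : ℕ) : ℝ) := by
        exact_mod_cast (by omega : 48 * 10 ^ 6 ≤ 11 * S)
      linarith)
    have he : (((10 : ℝ) ^ 6) ^ S)⁻¹ ≤ Real.exp (-(S : ℝ)) := by
      rw [Real.exp_neg]
      refine inv_anti₀ (Real.exp_pos _) ?_
      rw [← Real.exp_one_pow S]
      refine pow_le_pow_left₀ (Real.exp_pos 1).le ?_ S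
      have := Real.exp_one_lt_d9
      norm_num
      linarith
    set a := ((10 : ℝ) ^ 6) ^ S with ha
    have ha1 : (16 : ℝ) ≤ a := by
      rw [ha]
      calc (16 : ℝ) ≤ ((10 : ℝ) ^ 6) ^ 1 := by norm_num
        _ ≤ _ := pow_le_pow_right₀ (by norm_num) (by omega)
    have ha0 : (0 : ℝ) < a := by linarith
    have hh : ((16 * RT m k (bL m k l) : ℕ) : ℝ) ≤ a ^ 2 := by
      have h5 : ((RT m k (bL m k l) : ℕ) : ℝ) ≤ a := by
        rw [ha]
        exact_mod_cast Pool.Agent.Helper30.T5b.RT_le hm k (bL m k l)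
      push_cast
      nlinarith
    simp only [cond_false]
    calc (2 * ((16 * RT m k (bL m k l) : ℕ) : ℝ)) * (16 ^ (11 * S) / ((11 * S).factorial : ℝ))
        ≤ (2 * a ^ 2) * (a⁻¹ ^ 11) := by gcongr
      _ = 2 * (a⁻¹ * a⁻¹ ^ 8) := by field_simp
      _ ≤ 2 * (a⁻¹ * 1) := by
          have : a⁻¹ ≤ 1 := inv_le_one_of_one_le₀ (by linarith)
          gcongr
          exact pow_le_one₀ (by positivity) this
      _ ≤ 2 * Real.exp (-(S : ℝ)) := by
          rw [mul_one]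
          gcongr

end Pool.Agent.Helper57.T5b
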