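import Pool.Agent.Helper57.T5b.ZGen
import Pool.Agent.Helper22.NEARs.Defs

/-!
# T5b (MP_12a1af), block NEARs: pairs of elements of the inner windows across SPLIT (S8)
-/

set_option autoImplicit false

namespace Pool.Agent.Helper57.T5b

open Finset Pool.Agent.Helper27.T4 Pool.Agent.Helper37.T5b
open Pool.Agent.Helper5.ET (bb era)
open Pool.Agent.Helper30.T5b (RT NL BP RT_pos ez pz)
open Pool.Agent.Helper84.T5b Pool.Agent.Helper57.T5 Pool.Agent.Helper42.T5.Pr
open Pool.Agent.Helper44.T5b (Zw mem_Zw)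
open Pool.Agent.Helper83.T5b (CB CB_pos)
open Pool.Agent.Helper22.NEARs (ZwO)

/-- the elements of the windows with an outer key -/
theorem mem_ZwO {m k l s : ℕ} {o : JF → ℕ} {w : Key → ℕ} {u : ℕ} (hu : u ∈ ZwO m k l s o w) :
    ∃ y : ℕ → Fin 3 → ℕ, (∀ t, s ≤ t → t < rL m k l → y t ∈ Ys m k l t) ∧ ∃ v ∈ Vw m k l w,
      u = ∑ t ∈ Ico s (rL m k l), cs m k l t w (if t = 0 then o else 0) (y t) + Un m k l * v := by
  unfold ZwO at hu
  simp only [mem_image, mem_product, Fintype.mem_piFinset, Prod.exists] at hu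
  set r := rL m k l with hr
  have key : ∀ g : ℕ → ℕ, ∑ t ∈ Ico s r, g t = ∑ t : Fin (r - s), g (s + t) := by
    intro g
    rw [Finset.sum_Ico_eq_sum_range, ← Fin.sum_univ_eq_sum_range (fun i => g (s + i))]
  obtain ⟨y, v, ⟨hy, hv⟩, rfl⟩ := hu
  refine ⟨fun t => if h : t - s < r - s then y ⟨t - s, h⟩ else 0, ?_, v, hv, ?_⟩
  · intro t h1 h2
    have h3 : t - s < r - s := by omega
    have h4 := hy ⟨t - s, h3⟩
    simp only [show s + (t - s) = t by omega] at h4
    simp only [dif_pos h3]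
    exact h4
  · congr 1
    rw [key]
    refine Finset.sum_congr rfl (fun t _ => ?_)
    have h3 : s + (t : ℕ) - s < r - s := by have := t.2; omega
    have h4 : (⟨s + (t : ℕ) - s, h3⟩ : Fin (r - s)) = t := Fin.ext (by simp)
    simp only [dif_pos h3, h4]

/-- **S8**: pairs of elements of the inner windows across SPLIT -/
theorem zbadS {m : ℕ} (hm : 0 < m) (k : ℕ) : Pool.Agent.Helper22.NEARs.ZbadS m k := by
  obtain ⟨l1, h1⟩ := vprs_late hm k
  refine ⟨CB k ^ (k + 1) * 310 + 2, l1, ?_⟩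
  intro l' l i hl' hll _ hsp hi1 hi K hK hK'
  obtain ⟨hs, hb⟩ := hsp
  obtain ⟨g1, g2, g3, g4, g5, g6⟩ := Pool.Agent.Helper27.T5b.rL_bounds hm k l
  obtain ⟨g1', g2', g3', g4', g5', g6'⟩ := Pool.Agent.Helper27.T5b.rL_bounds hm k l'
  refine PrLe_mono (fun r _ hw => ?_) ?_ (h1 l l' hl' hll hb K hK hK')
  · obtain ⟨o, n, hn⟩ := hw
    intro hcon
    have h3 := zpairs_gen (i := i) (i' := i - 1) hm (by omega) hi (by omega) (by omega) (ext K r)
      (fun _ => 0) (fun t => if t = 0 then o else 0) (Zw m k l i (ext K r))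
      (ZwO m k l' (i - 1) o (ext K r)) (fun u hu => mem_Zw.1 hu) (fun u hu => mem_ZwO hu) hcon n
    have h4 : ((CB k ^ (k + 1) * 310 + 2) * SS m (bL m k l) : ℕ) <
        ((Zw m k l i (ext K r) ×ˢ ZwO m k l' (i - 1) o (ext K r)).filter
          (fun q => q.1 + q.2 = n)).card := by exact_mod_cast hn
    have h5 : CB k ^ (rL m k l - i) * (310 * SS m (bL m k l)) ≤
        (CB k ^ (k + 1) * 310 + 2) * SS m (bL m k l) := by
      rw [← mul_assoc]
      refine Nat.mul_le_mul_right _ ?_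
      refine (Nat.mul_le_mul_right 310 (Nat.pow_le_pow_right (CB_pos k) ?_)).trans
        (Nat.le_add_right _ _)
      omega
    omega
  · refine mul_le_mul_of_nonneg_right ?_ (Real.exp_pos _).le
    have : (2 : ℕ) ≤ CB k ^ (k + 1) * 310 + 2 := Nat.le_add_left _ _
    exact_mod_cast this

end Pool.Agent.Helper57.T5b
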