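import Pool.Agent.Helper57.T5b.VLeaf
import Pool.Agent.Helper83.T5b.LeafCase
import Pool.Agent.Helper22.NEARb.Defs

/-!
# T5b (MP_12a1af), block NEARb: pairs of elements of the inner windows (Nb8)
-/

set_option autoImplicit false

namespace Pool.Agent.Helper57.T5b

open Finset Pool.Agent.Helper27.T4 Pool.Agent.Helper37.T5b
open Pool.Agent.Helper5.ET (bb era)
open Pool.Agent.Helper30.T5b (RT NL BP RT_pos ez pz)
open Pool.Agent.Helper84.T5b Pool.Agent.Helper57.T5 Pool.Agent.Helper42.T5.Pr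
open Pool.Agent.Helper44.T5b (Zw mem_Zw)
open Pool.Agent.Helper83.T5b (CB CB_pos leaf_count dec_gen TH qN Un_eq NL_eq_qN)
open Pool.Agent.Helper22.SL (PrG)
open Pool.Agent.Helper22.NEARb (ZBad)

theorem Un_dvd {m k l l' : ℕ} (hm : 0 < m) (hl : l' ≤ l) (hb : bL m k l' = bL m k l)
    (hbb : bb 0 ≤ mL m k l') : Un m k l' ∣ Un m k l :=
  ⟨_, Un_eq hm hl hb hbb⟩

/-- helper83's pairs of window elements are pairs of `vprs` -/
theorem th_le {m k l l' : ℕ} (hm : 0 < m) (hl : l' ≤ l) (hb : bL m k l' = bL m k l)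
    (hbb : bb 0 ≤ mL m k l') (w : Key → ℕ) (N : ℕ) :
    (TH (Vw m k l w) (Vw m k l' w) (qN m k l' l) N).card ≤
      (vprs m k l l' w (Un m k l' * N)).card := by
  refine card_le_card fun x hx => ?_
  unfold TH at hx
  unfold vprs
  rw [mem_filter] at hx ⊢
  refine ⟨hx.1, ?_⟩
  rw [Un_eq hm hl hb hbb, ← hx.2]
  ring

theorem LL_shift_dvd (Q : ℕ → ℕ) (i t : ℕ) : LL (fun u => Q (i + u)) t ∣ LL Q (i + t) := by
  refine ⟨LL Q i, ?_⟩
  unfold LL
  rw [Finset.prod_range_add, mul_comm]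

/-- **pairs of elements of the inner windows against pairs of elements of the random windows** -/
theorem zpairs_le {m k l l' i R : ℕ} (hm : 0 < m) (hs : sL m k l' = sL m k l)
    (hb : bL m k l' = bL m k l) (hi : i ≤ rL m k l) (w : Key → ℕ)
    (hR : ∀ n, (vprs m k l l' w n).card ≤ R) (n : ℕ) :
    ((Zw m k l i w ×ˢ Zw m k l' i w).filter (fun q => q.1 + q.2 = n)).card ≤
      CB k ^ (k + 1) * R := by
  classical
  have hr : rL m k l' = rL m k l := by unfold rL; rw [hs, hb]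
  obtain ⟨g1, g2, g3, g4, g5, g6⟩ := Pool.Agent.Helper27.T5b.rL_bounds hm k l
  -- representations
  have hrep : ∀ u, ∃ yv : (ℕ → Fin 3 → ℕ) × ℕ, u ∈ Zw m k l i w →
      (∀ t, i ≤ t → t < rL m k l → yv.1 t ∈ Ys m k l t) ∧ yv.2 ∈ Vw m k l w ∧
      u = ∑ t ∈ Ico i (rL m k l), cs m k l t w 0 (yv.1 t) + Un m k l * yv.2 := by
    intro u
    by_cases hu : u ∈ Zw m k l i w
    · obtain ⟨y, hy, v, hv, e⟩ := mem_Zw.1 hu
      exact ⟨(y, v), fun _ => ⟨hy, hv, e⟩⟩
    · exact ⟨(fun _ => 0, 0), fun h => absurd h hu⟩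
  have hrep' : ∀ u, ∃ yv : (ℕ → Fin 3 → ℕ) × ℕ, u ∈ Zw m k l' i w →
      (∀ t, i ≤ t → t < rL m k l' → yv.1 t ∈ Ys m k l' t) ∧ yv.2 ∈ Vw m k l' w ∧
      u = ∑ t ∈ Ico i (rL m k l'), cs m k l' t w 0 (yv.1 t) + Un m k l' * yv.2 := by
    intro u
    by_cases hu : u ∈ Zw m k l' i w
    · obtain ⟨y, hy, v, hv, e⟩ := mem_Zw.1 hu
      exact ⟨(y, v), fun _ => ⟨hy, hv, e⟩⟩
    · exact ⟨(fun _ => 0, 0), fun h => absurd h hu⟩
  choose f hf using hrep
  choose f' hf' using hrep'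
  set S := (Zw m k l i w ×ˢ Zw m k l' i w).filter (fun q => q.1 + q.2 = n) with hS
  have hSm : ∀ q ∈ S, (q.1 ∈ Zw m k l i w ∧ q.2 ∈ Zw m k l' i w) ∧ q.1 + q.2 = n := by
    intro q hq
    rw [hS, mem_filter, mem_product] at hq
    exact hq
  have key : ∀ g : ℕ → ℕ, ∑ t ∈ Ico i (rL m k l), g t =
      ∑ t : Fin (rL m k l - i), g (i + t) := by
    intro g
    rw [Finset.sum_Ico_eq_sum_range, ← Fin.sum_univ_eq_sum_range (fun j => g (i + j))]
  have hcs : ∀ t y, LL (QQ m k (sL m k l)) t ∣ cs m k l t w 0 y := fun t y =>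
    (dvd_mul_left _ _).trans (Pool.Agent.Helper48.T5b.cs_dvd m k l t w 0 y)
  have hcs' : ∀ t y, LL (QQ m k (sL m k l)) t ∣ cs m k l' t w 0 y := fun t y => by
    have h1 := (dvd_mul_left _ _).trans (Pool.Agent.Helper48.T5b.cs_dvd m k l' t w 0 y)
    rwa [hs] at h1
  refine (leaf_count S (rL m k l - i)
    (fun t => Ys m k l (i + t) ×ˢ Ys m k l' (i + t))
    (fun t y => cs m k l (i + t) w 0 y.1 + cs m k l' (i + t) w 0 y.2)
    (fun t => QQ m k (sL m k l) (i + t)) (fun _ => CB k) ?_ ?_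
    (fun q t => ((f q.1).1 (i + t), (f' q.2).1 (i + t))) ?_ 0 n
    (fun q => Un m k l * (f q.1).2) (fun q => Un m k l' * (f' q.2).2) ?_ ?_ ?_ R ?_).trans ?_
  · intro t _ y _
    exact (LL_shift_dvd (QQ m k (sL m k l)) i t).trans (dvd_add (hcs _ _) (hcs' _ _))
  · intro t ht T
    exact dec_gen hm (by rw [hs]) (by omega) (by rw [hr]; omega) w _ _ T
  · intro q hq t
    obtain ⟨⟨h1, h2⟩, -⟩ := hSm q hq
    have ht := t.2
    refine mem_product.2 ⟨(hf _ h1).1 _ (by omega) (by omega), ?_⟩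
    exact (hf' _ h2).1 _ (by omega) (by rw [hr]; omega)
  · intro q _
    have h1 := LL_shift_dvd (QQ m k (sL m k l)) i (rL m k l - i)
    rw [Nat.add_sub_cancel' hi] at h1
    exact h1.trans ((dvd_mul_left _ _).mul_right _)
  · intro q _
    have h1 := LL_shift_dvd (QQ m k (sL m k l)) i (rL m k l - i)
    rw [Nat.add_sub_cancel' hi] at h1
    have h2 : LL (QQ m k (sL m k l)) (rL m k l) ∣ Un m k l' := by
      rw [← hs, ← hr]
      exact dvd_mul_left _ _
    exact h1.trans (h2.mul_right _)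
  · intro q hq
    obtain ⟨⟨h1, h2⟩, h3⟩ := hSm q hq
    have e1 := (hf _ h1).2.2
    have e2 := (hf' _ h2).2.2
    rw [hr, key] at e2
    rw [key] at e1
    rw [zero_add, Finset.sum_add_distrib]
    simp only
    omega
  · intro z N
    refine le_trans (card_le_card_of_injOn (fun q => ((f q.1).2, (f' q.2).2)) ?_ ?_) (hR N)
    · intro q hq
      rw [mem_coe, mem_filter] at hq
      obtain ⟨⟨h1, h2⟩, h3⟩ := hSm q hq.1
      rw [mem_coe]
      unfold vprs
      rw [mem_filter, mem_product]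
      exact ⟨⟨(hf _ h1).2.1, (hf' _ h2).2.1⟩, hq.2.2⟩
    · intro q hq p hp h
      rw [mem_coe, mem_filter] at hq hp
      obtain ⟨⟨h1, h2⟩, -⟩ := hSm q hq.1
      obtain ⟨⟨g1, g2⟩, -⟩ := hSm p hp.1
      simp only [Prod.mk.injEq] at h
      have hlab := hq.2.1.trans hp.2.1.symm
      have e1 := (hf _ h1).2.2
      have e2 := (hf' _ h2).2.2
      have e3 := (hf _ g1).2.2
      have e4 := (hf' _ g2).2.2
      rw [hr, key] at e2 e4
      rw [key] at e1 e3
      have a1 : ∀ t : Fin (rL m k l - i), (f q.1).1 (i + t) = (f p.1).1 (i + t) := fun t =>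
        congrArg Prod.fst (congrFun hlab t)
      have a2 : ∀ t : Fin (rL m k l - i), (f' q.2).1 (i + t) = (f' p.2).1 (i + t) := fun t =>
        congrArg Prod.snd (congrFun hlab t)
      refine Prod.ext ?_ ?_
      · rw [e1, e3, h.1]
        simp only [a1]
      · rw [e2, e4, h.2]
        simp only [a2]
  · rw [prod_const, card_range]
    exact Nat.mul_le_mul_right _ (Nat.pow_le_pow_right (CB_pos k) (by omega))

/-- **Nb8**: pairs of elements of the inner windows -/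
theorem zbad (m k : ℕ) (hm : 2 ≤ m) : ∃ C K0 : ℕ, ∀ l' l i, K0 ≤ l' → l' ≤ l →
    Same m k l' l → SameB m k l' l → 1 ≤ i → i ≤ rL m k l →
    ∀ K, keysOf m k l ⊆ K → keysOf m k l' ⊆ K →
    PrG (Mk m k) K (ZBad m k l' l i ((C * SS m (bL m k l) : ℕ) : ℝ))
      (C * Real.exp (-(SS m (bL m k l) : ℝ))) := by
  have hm0 : 0 < m := by omega
  obtain ⟨l1, h1⟩ := v_leafB hm0 k
  obtain ⟨l2, h2⟩ := Pool.Agent.Helper27.T5b.exists_bL hm0 k 0
  refine ⟨CB k ^ (k + 1) * 310 + 2, l1 + l2, ?_⟩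
  intro l' l i hl' hll hs hb _ hi K hK hK'
  have hb1 := (h2 l (by omega)).1
  have hb2 := (h2 l' (by omega)).1
  have hs' : sL m k l' = sL m k l := hs
  have hb' : bL m k l' = bL m k l := hb
  refine PrLe_mono (fun r _ hw => ?_) ?_ (h1 l l' (by omega) hll hb' (Un_dvd hm0 hll hb' hb2) K
    (BKb_of hm0 hb1 hK) (BKb_of hm0 hb2 hK'))
  · obtain ⟨n, hn⟩ := hw
    by_contra hcon
    simp only [not_exists, not_lt] at hcon
    have h3 := zpairs_le hm0 hs' hb' hi (ext K r) hcon n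
    have h4 : ((CB k ^ (k + 1) * 310 + 2) * SS m (bL m k l) : ℕ) <
        ((Zw m k l i (ext K r) ×ˢ Zw m k l' i (ext K r)).filter
          (fun q => q.1 + q.2 = n)).card := by exact_mod_cast hn
    have h5 : CB k ^ (k + 1) * (310 * SS m (bL m k l)) ≤
        (CB k ^ (k + 1) * 310 + 2) * SS m (bL m k l) := by
      rw [← mul_assoc]
      exact Nat.mul_le_mul_right _ (Nat.le_add_right _ _)
    omega
  · refine mul_le_mul_of_nonneg_right ?_ (Real.exp_pos _).le
    have : (2 : ℕ) ≤ CB k ^ (k + 1) * 310 + 2 := Nat.le_add_left _ _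
    exact_mod_cast this

end Pool.Agent.Helper57.T5b
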