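import Pool.Agent.Helper57.T5b.Nb8

/-!
# T5b (MP_12a1af), block NEARb: decoding of some static levels of the inner windows
-/

set_option autoImplicit false

namespace Pool.Agent.Helper57.T5b

open Finset Pool.Agent.Helper27.T4 Pool.Agent.Helper37.T5b
open Pool.Agent.Helper5.ET (bb era)
open Pool.Agent.Helper30.T5b (RT NL BP RT_pos ez pz)
open Pool.Agent.Helper84.T5b Pool.Agent.Helper57.T5 Pool.Agent.Helper42.T5.Pr
open Pool.Agent.Helper44.T5b (Zw mem_Zw Zw_split dvd_Zw)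
open Pool.Agent.Helper83.T5b (CB CB_pos leaf_count dec_gen)

/-- **decoding of the static levels `i, ..., j - 1`** of the inner windows of two states with the
same number of split levels -/
theorem zw_iter {m k l l' i j R : ℕ} (hm : 0 < m) (hs : sL m k l' = sL m k l) (hij : i ≤ j)
    (hj : j ≤ rL m k l) (hj' : j ≤ rL m k l') (w : Key → ℕ)
    (hR : ∀ n, ((Zw m k l j w ×ˢ Zw m k l' j w).filter (fun q => q.1 + q.2 = n)).card ≤ R)
    (n : ℕ) :
    ((Zw m k l i w ×ˢ Zw m k l' i w).filter (fun q => q.1 + q.2 = n)).card ≤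
      CB k ^ (j - i) * R := by
  classical
  obtain ⟨h, rfl⟩ : ∃ h, j = i + h := ⟨j - i, by omega⟩
  rw [Nat.add_sub_cancel_left]
  -- representations
  have hrep : ∀ u, ∃ yv : (ℕ → Fin 3 → ℕ) × ℕ, u ∈ Zw m k l i w →
      (∀ r < h, yv.1 r ∈ Ys m k l (i + r)) ∧ yv.2 ∈ Zw m k l (i + h) w ∧
      u = ∑ r ∈ range h, cs m k l (i + r) w 0 (yv.1 r) + yv.2 := by
    intro u
    by_cases hu : u ∈ Zw m k l i w
    · obtain ⟨y, hy, v, hv, e⟩ := Zw_split h hj hu
      exact ⟨(y, v), fun _ => ⟨hy, hv, e⟩⟩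
    · exact ⟨(fun _ => 0, 0), fun h => absurd h hu⟩
  have hrep' : ∀ u, ∃ yv : (ℕ → Fin 3 → ℕ) × ℕ, u ∈ Zw m k l' i w →
      (∀ r < h, yv.1 r ∈ Ys m k l' (i + r)) ∧ yv.2 ∈ Zw m k l' (i + h) w ∧
      u = ∑ r ∈ range h, cs m k l' (i + r) w 0 (yv.1 r) + yv.2 := by
    intro u
    by_cases hu : u ∈ Zw m k l' i w
    · obtain ⟨y, hy, v, hv, e⟩ := Zw_split h hj' hu
      exact ⟨(y, v), fun _ => ⟨hy, hv, e⟩⟩
    · exact ⟨(fun _ => 0, 0), fun h => absurd h hu⟩
  choose f hf using hrep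
  choose f' hf' using hrep'
  set S := (Zw m k l i w ×ˢ Zw m k l' i w).filter (fun q => q.1 + q.2 = n) with hS
  have hSm : ∀ q ∈ S, (q.1 ∈ Zw m k l i w ∧ q.2 ∈ Zw m k l' i w) ∧ q.1 + q.2 = n := by
    intro q hq
    rw [hS, mem_filter, mem_product] at hq
    exact hq
  have hcs : ∀ t y, LL (QQ m k (sL m k l)) t ∣ cs m k l t w 0 y := fun t y =>
    (dvd_mul_left _ _).trans (Pool.Agent.Helper48.T5b.cs_dvd m k l t w 0 y)
  have hcs' : ∀ t y, LL (QQ m k (sL m k l)) t ∣ cs m k l' t w 0 y := fun t y => by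
    have h1 := (dvd_mul_left _ _).trans (Pool.Agent.Helper48.T5b.cs_dvd m k l' t w 0 y)
    rwa [hs] at h1
  refine (leaf_count S h
    (fun t => Ys m k l (i + t) ×ˢ Ys m k l' (i + t))
    (fun t y => cs m k l (i + t) w 0 y.1 + cs m k l' (i + t) w 0 y.2)
    (fun t => QQ m k (sL m k l) (i + t)) (fun _ => CB k) ?_ ?_
    (fun q t => ((f q.1).1 t, (f' q.2).1 t)) ?_ 0 n
    (fun q => (f q.1).2) (fun q => (f' q.2).2) ?_ ?_ ?_ R ?_).trans ?_
  · intro t _ y _
    exact (LL_shift_dvd (QQ m k (sL m k l)) i t).trans (dvd_add (hcs _ _) (hcs' _ _))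
  · intro t ht T
    exact dec_gen hm (by rw [hs]) (by omega) (by omega) w _ _ T
  · intro q hq t
    obtain ⟨⟨h1, h2⟩, -⟩ := hSm q hq
    exact mem_product.2 ⟨(hf _ h1).1 t t.2, (hf' _ h2).1 t t.2⟩
  · intro q hq
    obtain ⟨⟨h1, h2⟩, -⟩ := hSm q hq
    exact ((LL_shift_dvd (QQ m k (sL m k l)) i h).trans (dvd_mul_left _ _)).trans
      (dvd_Zw hm hj (hf _ h1).2.1)
  · intro q hq
    obtain ⟨⟨h1, h2⟩, -⟩ := hSm q hq
    have h3 := dvd_Zw hm hj' (hf' _ h2).2.1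
    rw [hs] at h3
    exact ((LL_shift_dvd (QQ m k (sL m k l)) i h).trans (dvd_mul_left _ _)).trans h3
  · intro q hq
    obtain ⟨⟨h1, h2⟩, h3⟩ := hSm q hq
    have e1 := (hf _ h1).2.2
    have e2 := (hf' _ h2).2.2
    rw [← Fin.sum_univ_eq_sum_range (fun r => cs m k l (i + r) w 0 ((f q.1).1 r))] at e1
    rw [← Fin.sum_univ_eq_sum_range (fun r => cs m k l' (i + r) w 0 ((f' q.2).1 r))] at e2
    rw [zero_add, Finset.sum_add_distrib]
    simp only
    omega
  · intro z N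
    refine le_trans (card_le_card_of_injOn (fun q => ((f q.1).2, (f' q.2).2)) ?_ ?_) (hR N)
    · intro q hq
      rw [mem_coe, mem_filter] at hq
      obtain ⟨⟨h1, h2⟩, h3⟩ := hSm q hq.1
      rw [mem_coe, mem_filter, mem_product]
      exact ⟨⟨(hf _ h1).2.1, (hf' _ h2).2.1⟩, hq.2.2⟩
    · intro q hq p hp h
      rw [mem_coe, mem_filter] at hq hp
      obtain ⟨⟨h1, h2⟩, -⟩ := hSm q hq.1
      obtain ⟨⟨g1, g2⟩, -⟩ := hSm p hp.1
      simp only [Prod.mk.injEq] at h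
      have hlab := hq.2.1.trans hp.2.1.symm
      have e1 := (hf _ h1).2.2
      have e2 := (hf' _ h2).2.2
      have e3 := (hf _ g1).2.2
      have e4 := (hf' _ g2).2.2
      rw [← Fin.sum_univ_eq_sum_range (fun r => cs m k l (i + r) w 0 ((f q.1).1 r))] at e1
      rw [← Fin.sum_univ_eq_sum_range (fun r => cs m k l' (i + r) w 0 ((f' q.2).1 r))] at e2
      rw [← Fin.sum_univ_eq_sum_range (fun r => cs m k l (i + r) w 0 ((f p.1).1 r))] at e3
      rw [← Fin.sum_univ_eq_sum_range (fun r => cs m k l' (i + r) w 0 ((f' p.2).1 r))] at e4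
      have a1 : ∀ t : Fin _, (f q.1).1 t = (f p.1).1 t := fun t =>
        congrArg Prod.fst (congrFun hlab t)
      have a2 : ∀ t : Fin _, (f' q.2).1 t = (f' p.2).1 t := fun t =>
        congrArg Prod.snd (congrFun hlab t)
      refine Prod.ext ?_ ?_
      · rw [e1, e3, h.1]
        simp only [a1]
      · rw [e2, e4, h.2]
        simp only [a2]
  · rw [prod_const, card_range]

end Pool.Agent.Helper57.T5b
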