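import Pool.Agent.Helper57.T5b.PpAbs
import Pool.Agent.Helper66.T5b.PpBot
import Pool.Agent.Helper39.T5b.S4
import Pool.Agent.Helper50.T5b.BadCtxS

/-!
# T5b, line S9 (CaseStatS): the random windows, small distance, across SPLIT
-/

set_option autoImplicit false

namespace Pool.Agent.Helper57.T5b

open Finset Pool.Agent.Helper22.SL Pool.Agent.Helper57.T5
open Pool.Agent.Helper27.T4 (NN)
open Pool.Agent.Helper30.T5b (RT RT_pos ez)
open Pool.Agent.Helper84.T5b Pool.Agent.Helper37.T5b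
open Pool.Agent.Helper42.T5.Pr (PrLe PrLe_mono PrLe_exists)
open Pool.Agent.Helper22.NEARs
open Pool.Agent.Helper22.NEARb (wW)
open Pool.Agent.Helper63.T5b Pool.Agent.Helper44.T5b Pool.Agent.Helper44.T5
open Pool.Agent.Helper63.T5 (lam lam_gt lam_lt)
open Pool.Agent.Helper5.ET (bb)
open Pool.Agent.Helper39.T5b (IrJ eJ hIr_S F0_S)
open Pool.Agent.Helper66.T5b (xq one_le_xq xq_mono xq_le SS_add_le exists_late_W exists_RT_ge
  RT_le_exp Bw_last)
open Pool.Agent.Helper48.T5b (SplitP)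

variable {m k t l' l : ℕ}

/-- sharp bound for the number of labels in a class of a front, across SPLIT -/
theorem IrJ_le_S (hm : 0 < m) (h : PDs m k t l' l) (hS : SplitP m k (sL m k l') l' l)
    {c : ℝ} (hL : LateN m k c l') (o : JF → ℕ) {r : ℕ} (hr : r ≤ (PN m k t l' l o).h) :
    (IrJ m k l l' t r : ℝ) ≤ Real.exp (((lg m k l - lg m k l') -
      (lg m k (ez m (sL m k l - (t + r)) l') - lg m k l')) / 2) + 1 := by
  have hX := numXS hm h hS hL o
  rcases Nat.le_total l (ez m (sL m k l - (t + r)) l') with h1 | h1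
  · rw [IrJ_eq_one h1, Nat.cast_one]
    have := Real.exp_pos (((lg m k l - lg m k l') -
      (lg m k (ez m (sL m k l - (t + r)) l') - lg m k l')) / 2)
    linarith
  · have h2 : (PN m k t l' l o).F' r * IrJ m k l l' t r ^ 2 ≤ (PN m k t l' l o).M := by
      have e1 : (PN m k t l' l o).F' r = Jn m k (sL m k l) (ez m (sL m k l - (t + r)) l') := rfl
      have e2 : (PN m k t l' l o).M = Jn m k (sL m k l) l := rfl
      rw [e1, e2, Pool.Agent.Helper63.T5b.Jn_split m k (sL m k l) h1]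
      apply Nat.mul_le_mul_left
      unfold IrJ NN
      rw [← Finset.prod_pow]
      apply Finset.prod_le_prod' (fun i _ => ?_)
      rw [← pow_mul]
      apply Nat.pow_le_pow_right (pJ_prime k _ i).pos
      have h3 := aJ_mono m k (sL m k l) i h1
      have h4 := aJ_mono m k (sL m k l) i
        (Pool.Agent.Helper30.T5b.lt_ez hm (sL m k l - (t + r)) l').le
      show (uJ m k l l' i - eJ m k l l' t r i) * 2 ≤
        aJ m k (sL m k l) l i - aJ m k (sL m k l) (ez m (sL m k l - (t + r)) l') i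
      unfold uJ eJ
      omega
    have hM' := hX.M'_pos
    have h3 : ((PN m k t l' l o).F' r : ℝ) * (IrJ m k l l' t r : ℝ) ^ 2 ≤
        (PN m k t l' l o).M := by exact_mod_cast h2
    rw [hX.F' r hr, hX.M, mul_assoc] at h3
    have h4 := le_of_mul_le_mul_left h3 hM'
    have h5 : (IrJ m k l l' t r : ℝ) ^ 2 ≤ Real.exp ((lg m k l - lg m k l') -
        (lg m k (ez m (sL m k l - (t + r)) l') - lg m k l')) := by
      rw [Real.exp_sub (lg m k l - lg m k l'), le_div_iff₀ (Real.exp_pos _), mul_comm]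
      exact h4
    have h6 : Real.exp (((lg m k l - lg m k l') -
        (lg m k (ez m (sL m k l - (t + r)) l') - lg m k l')) / 2) ^ 2 =
        Real.exp ((lg m k l - lg m k l') -
          (lg m k (ez m (sL m k l - (t + r)) l') - lg m k l')) := by
      rw [← Real.exp_nat_mul]
      congr 1
      push_cast
      ring
    rw [← h6] at h5
    have h7 := le_of_sq_le_sq h5 (Real.exp_pos _).le
    linarith

theorem IrJ_pos (m k l l' t r : ℕ) : 1 ≤ IrJ m k l l' t r := by
  unfold IrJ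
  exact Finset.prod_pos fun i _ => Nat.pow_pos (pJ_prime k (sL m k l) i).pos

theorem xq_three (hm : 2 ≤ m) (b : ℕ) : xq m (b + 3) ≤ SS m b ^ 6 := by
  have h1 := xq_le hm (b + 1)
  have h2 := Pool.Agent.Helper45.T5b.SS_succ_le_sq hm b
  calc xq m (b + 3) ≤ SS m (b + 1) ^ 3 := h1
    _ ≤ (SS m b ^ 2) ^ 3 := Nat.pow_le_pow_left h2 3
    _ = SS m b ^ 6 := by rw [← pow_mul]

/-- **S9** -/
theorem ppBotS (m k : ℕ) (hm : 2 ≤ m) (hk : 0 < k) : PpBotS m k := by
  classical
  have hm0 : 0 < m := by omega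
  set CC : ℝ := 30 * 720000000 * 200 * KG k with hCC
  obtain ⟨W0, hW0⟩ := exists_late_W 49 CC
  obtain ⟨c0, hc0⟩ := pow_unbounded_of_one_lt (16 * CC) (show (1 : ℝ) < 1000 by norm_num)
  obtain ⟨l1, h1⟩ := exists_lateN hm k (max (W0 : ℝ) (10 ^ 7))
  obtain ⟨l2, h2⟩ := exists_RT_ge hm0 k
  obtain ⟨l3, h3⟩ := Pool.Agent.Helper50.T5b.cardJxS m k hm hk
  obtain ⟨l4, h4⟩ := Pool.Agent.Helper63.T5b.exists_splitP hm0 k
  refine ⟨max (max l1 l2) (max l3 l4), c0, fun t l' l hl' h hcase K hK hK' => ?_⟩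
  simp only [max_le_iff] at hl'
  obtain ⟨⟨g1, g2⟩, g3, g4⟩ := hl'
  have hL := h1 l' g1
  have hRT := h2 l (g2.trans h.le)
  have hJ := h3 t l' l g3 h
  have hS := h4 l' l g4 h.le h.near h.split
  have hlt := PDs_lt h
  have hbb' := hL.bb
  have hbb : bb 0 ≤ mL m k l := hbb'.trans (Pool.Agent.Helper27.T5b.l1_mono _ h.le)
  obtain ⟨hsb, hD7, hDlow⟩ := hcase
  have hrl := Pool.Agent.Helper27.T5b.rL_bounds hm0 k l
  have hrle : rL m k l ≤ sL m k l := Nat.sub_le _ _
  have hr' : rL m k l' + 1 = rL m k l := h.rL_eq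
  have hbeq : bL m k l' = bL m k l := h.bL_eq
  have ht1 := h.t1
  have htr := h.tr
  have hh3 : hb m k t l' l ≤ 3 := hbS_le_three hm0 h
  have hh1 : 1 ≤ hb m k t l' l := Pool.Agent.Helper22.NEARb.hb_pos m k t l' l
  have hsbe : sb m k t l' l = t + hb m k t l' l := rfl
  have hbL : bL m k l = sL m k l - rL m k l := by
    have h6 := Pool.Agent.Helper63.T5b.bL_le_idx (m := m) (k := k) (l := l) hm0
      (Nat.zero_le _)
    unfold rL
    omega
  have hrt : t ≤ sL m k l + 1 := by omega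
  have htk : t ≤ k + 2 := by omega
  -- sizes
  have hc := hL.c
  rw [hbeq] at hc
  have hcW : (W0 : ℝ) ≤ (SS m (bL m k l) : ℝ) := (le_max_left _ _).trans hc
  have hc7 : (10 : ℝ) ^ 7 ≤ (SS m (bL m k l) : ℝ) := (le_max_right _ _).trans hc
  obtain ⟨x, hx⟩ : ∃ x, xq m (bL m k l + hb m k t l' l) = x := ⟨_, rfl⟩
  have hx1 : 1 ≤ x := by rw [← hx]; exact one_le_xq _ _
  have hx6 : x ≤ SS m (bL m k l) ^ 6 := by
    rw [← hx]
    exact (xq_mono m (by omega)).trans (xq_three hm _)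
  have hwt : wW m k l (t - 1) ≤ SS m (bL m k l) * x ^ 4 := by
    have e1 : wW m k l (t - 1) = SS m (bL m k l + (hb m k t l' l + 1)) := by
      unfold wW
      congr 1
      omega
    have e2 := SS_add_le m (bL m k l) (hb m k t l' l + 1)
    have e3 : 2 ^ (aa m (bL m k l + (hb m k t l' l + 1) - 1) / m + 1) = x := by
      rw [← hx]
      rfl
    rw [e3] at e2
    rw [e1]
    exact e2.trans (Nat.mul_le_mul_left _ (Nat.pow_le_pow_right hx1 (by omega)))
  have hxd : x ≤ 2 ^ (aa m (sL m k l) / m + 1) := by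
    have e1 : x ≤ xq m (sL m k l) := by
      rw [← hx]
      exact xq_mono m (by omega)
    exact e1
  obtain ⟨Y, hYdef⟩ : ∃ Y, x ^ 4 = Y := ⟨_, rfl⟩
  have hY1 : 1 ≤ Y := by rw [← hYdef]; exact Nat.pow_pos hx1
  rw [hYdef] at hwt
  obtain ⟨W1, hW1def⟩ : ∃ W1 : ℝ, (SS m (bL m k l) : ℝ) = W1 := ⟨_, rfl⟩
  have hwt' : (wW m k l (t - 1) : ℝ) ≤ W1 * Y := by
    rw [← hW1def]
    exact_mod_cast hwt
  have hYW : (Y : ℝ) ≤ W1 ^ 24 := by
    have e1 : Y ≤ SS m (bL m k l) ^ 24 := by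
      rw [← hYdef]
      calc x ^ 4 ≤ (SS m (bL m k l) ^ 6) ^ 4 := Nat.pow_le_pow_left hx6 4
        _ = _ := by rw [← pow_mul]
    rw [← hW1def]
    exact_mod_cast e1
  rw [hW1def] at hcW hc7 hRT
  have hRTu := RT_le_exp hm0 k (bL m k l)
  rw [hW1def] at hRTu
  have hlam := lam_gt
  have hK1 : 1 ≤ KG k := by
    have := (numXS hm0 h hS hL 0).K1
    exact this
  have hCC0 : 0 ≤ CC := by rw [hCC]; positivity
  -- the distance
  have hd1000 := thousand_pow_le m k h.le
  have hYd : (Y : ℝ) * CC ≤ Real.exp ((lg m k l - lg m k l') / 2) := by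
    refine le_trans ?_ hd1000
    have e1 : (Y : ℝ) ≤ 16 * 16 ^ (aa m (sL m k l) / m) := by
      have e2 : Y ≤ 16 * 16 ^ (aa m (sL m k l) / m) := by
        rw [← hYdef]
        calc x ^ 4 ≤ (2 ^ (aa m (sL m k l) / m + 1)) ^ 4 := Nat.pow_le_pow_left hxd 4
          _ = 16 * 16 ^ (aa m (sL m k l) / m) := by
              rw [← pow_mul, mul_comm _ 4, pow_mul, show 2 ^ 4 = 16 by norm_num, pow_succ,
                mul_comm]
      exact_mod_cast e2
    calc (Y : ℝ) * CC ≤ 16 * 16 ^ (aa m (sL m k l) / m) * CC :=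
          mul_le_mul_of_nonneg_right e1 hCC0
      _ = 16 ^ (aa m (sL m k l) / m) * (16 * CC) := by ring
      _ ≤ 1000 ^ (aa m (sL m k l) / m) * 1000 ^ c0 :=
          mul_le_mul (pow_le_pow_left₀ (by norm_num) (by norm_num) _) hc0.le (by positivity)
            (by positivity)
      _ = 1000 ^ (aa m (sL m k l) / m + c0) := by rw [pow_add]
      _ ≤ 1000 ^ (l - l') := pow_le_pow_right₀ (by norm_num) hDlow
  have hlate : CC * (Y : ℝ) ^ 2 * W1 * Real.exp (-(W1 / 40)) ≤ 1 := by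
    refine le_trans ?_ (hW0 W1 hcW)
    have e1 : (Y : ℝ) ^ 2 * W1 ≤ W1 ^ 49 := by
      calc (Y : ℝ) ^ 2 * W1 ≤ (W1 ^ 24) ^ 2 * W1 := by
            refine mul_le_mul_of_nonneg_right (pow_le_pow_left₀ (Nat.cast_nonneg _) hYW 2) ?_
            linarith
        _ = W1 ^ 49 := by ring
    calc CC * (Y : ℝ) ^ 2 * W1 * Real.exp (-(W1 / 40))
        = CC * ((Y : ℝ) ^ 2 * W1) * Real.exp (-(W1 / 40)) := by ring
      _ ≤ CC * W1 ^ 49 * Real.exp (-(W1 / 40)) := by gcongr
  have hdW : lg m k l - lg m k l' ≤ 0.351 * (W1 * lam) := by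
    have e1 := hL.lg_le (x := l') (y := l) (W := SS m (bL m k l)) le_rfl h.le
      (le_of_eq (by rw [hbeq]))
    have e2 : 20 * ((l - l' : ℕ) : ℝ) ≤ 7 * W1 := by
      rw [← hW1def]
      exact_mod_cast hD7.le
    rw [hW1def] at e1
    have e3 : 10001 / 10000 * ((l - l' : ℕ) : ℝ) + W1 / 10000 ≤ 0.351 * W1 := by
      linarith
    have e4 := mul_le_mul_of_nonneg_right e3 (show 0 ≤ lam by linarith)
    linarith
  have hvl : Real.exp (0.99 * (W1 * lam)) ≤ (RT m k (bL m k l) : ℝ) := by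
    refine le_trans (Real.exp_le_exp.2 ?_) hRT
    have : 0 ≤ W1 * lam := by
      apply mul_nonneg <;> linarith
    linarith
  -- one context
  have hone : ∀ c ∈ Jx m k t l' l, PrLe (Mk m k) K
      (fun w => Real.exp (-1) < PPx m k t l' l w c) (3 * Real.exp (-(100 * (Y : ℝ) * W1))) := by
    intro c hcJ
    have hθ : c.2.1 ∈ Theta (pJ k (sL m k l)) (dJ m k l l' t) := by
      unfold Jx at hcJ
      exact (mem_product.1 (mem_product.1 hcJ).2).1
    have hX := numXS hm0 h hS hL c.1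
    have hP := PNs_ok hm0 h hS hL c.1
    have hPh : (PN m k t l' l c.1).h = hb m k t l' l := rfl
    obtain ⟨t1, ht1'⟩ : ∃ t1, (PN m k t l' l c.1).h = t1 + 1 :=
      ⟨(PN m k t l' l c.1).h - 1, by omega⟩
    have hidx : sL m k l - (t + (PN m k t l' l c.1).h) = bL m k l := by
      rw [hPh, hbL]
      omega
    have hNL := hX.toNum.toL ht1'
    have hjump := hX.toNum.jump _ (by omega : 1 ≤ (PN m k t l' l c.1).h) le_rfl
    have hIr := IrJ_le_S hm0 h hS hL c.1 (le_refl (PN m k t l' l c.1).h)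
    rw [hX.toNum.F' _ le_rfl, hX.toNum.F _ le_rfl, hX.toNum.M, mul_assoc, mul_assoc] at hjump
    have hjump2 := le_of_mul_le_mul_left hjump hX.M'_pos
    rw [← Real.exp_add, ← Real.exp_add] at hjump2
    have hjump3 := Real.exp_le_exp.1 hjump2
    rw [hidx] at hIr
    simp only [hidx, hW1def] at hNL hjump3
    have hT : Tg (PN m k t l' l c.1) (nTx m k t l' l c) (XTx m k t l' l c)
        (IrJ m k l l' t) :=
      Pool.Agent.Helper39.SL.tg_XT hP (Pool.Agent.Helper57.T5b.DJ_pos m k l l' t) (F0_S h hm0)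
        (dvd_mul_right _ _) (fun r _ y => hIr_S hm0 h.com hrt htk hθ r y)
    have hMq : (PN m k t l' l c.1).M = (PN m k t l' l c.1).M' *
        (Jn m k (sL m k l) l / Jn m k (sL m k l) l') :=
      (Nat.mul_div_cancel' (Pool.Agent.Helper44.T5b.Jn_dvd m k (sL m k l) h.le)).symm
    have hq0 : 0 < Jn m k (sL m k l) l / Jn m k (sL m k l) l' :=
      Nat.div_pos (Nat.le_of_dvd (Jn_pos _ _ _ _)
        (Pool.Agent.Helper44.T5b.Jn_dvd m k (sL m k l) h.le)) (Jn_pos _ _ _ _)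
    have hI : ((nTx m k t l' l c : ℕ) : ℝ) ≤ Real.exp ((lg m k l - lg m k l') / 2) := by
      have e1 : nTx m k t l' l c ≤ IJ m k l l' := Pool.Agent.Helper39.SL.nT_le _ _ _ _ _ _
      refine le_trans ?_ (IJS_le hm0 h hS)
      exact_mod_cast e1
    have key := pp_abs (fun q => Mk_pos m k q)
      (winD_two (m := m) (k := k) (ne_of_lt hlt) (BKb_of hm0 hbb hK) (BKb_of hm0 hbb' hK'))
      hP hT (v := RT m k (bL m k l)) rfl (by simp only [cond_true]; rw [hbeq])
      (le_refl _) (by simp only [cond_true]; rw [hbeq]) hMq hq0 hNL (by omega)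
      (by linarith) hvl hRTu hdW hc7 hI (IrJ_pos _ _ _ _ _ _) hIr hY1 (c9 := CC) le_rfl hYd hlate
    refine PrLe_mono (fun r _ hr => ?_) le_rfl key
    have e1 : PPx m k t l' l (Pool.Agent.Helper42.T5.Pr.ext K r) c =
        ((PP (PN m k t l' l c.1) (nTx m k t l' l c) (XTx m k t l' l c)
          (Vw m k l (Pool.Agent.Helper42.T5.Pr.ext K r))
          (Vw m k l' (Pool.Agent.Helper42.T5.Pr.ext K r)) : ℕ) : ℝ) *
          (PN m k t l' l c.1).A (PN m k t l' l c.1).h *
          (PN m k t l' l c.1).pc (PN m k t l' l c.1).h := by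
      unfold PPx Bw
      rw [hsb, Bw_last, ← hr', Nat.add_sub_cancel, Bw_last]
    rw [e1] at hr
    exact hr
  have hall := PrLe_exists (K := K) (M := Mk m k) (Jx m k t l' l)
    (B := fun c w => Real.exp (-1) < PPx m k t l' l w c)
    (ε := fun _ => 3 * Real.exp (-(100 * (Y : ℝ) * W1))) hone
  refine PrLe_mono (fun _ _ h => h) ?_ hall
  rw [Finset.sum_const, nsmul_eq_mul, hW1def]
  have e5 : (3 : ℝ) ≤ Real.exp 2 := by
    have := Real.add_one_le_exp (2 : ℝ)
    linarith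
  have hY1' : (1 : ℝ) ≤ Y := by exact_mod_cast hY1
  have e6 : W1 ≤ W1 * Y := by nlinarith
  calc ((Jx m k t l' l).card : ℝ) * (3 * Real.exp (-(100 * (Y : ℝ) * W1)))
      ≤ Real.exp (90 * wW m k l (t - 1)) * (Real.exp 2 * Real.exp (-(100 * (Y : ℝ) * W1))) := by
        gcongr
    _ = Real.exp (90 * wW m k l (t - 1) + (2 + -(100 * (Y : ℝ) * W1))) := by
        rw [Real.exp_add, Real.exp_add]
    _ ≤ Real.exp (-W1) := by
        apply Real.exp_le_exp.2
        have e7 : (90 : ℝ) * wW m k l (t - 1) ≤ 90 * (W1 * Y) := by linarith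
        nlinarith

end Pool.Agent.Helper57.T5b
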