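import Pool.Agent.Helper57.T5b.BotCore
import Pool.Agent.Helper44.T5b.NearLate

/-!
# T5b (MP_12a1af): pairs of states all of whose fronts are common
-/

set_option autoImplicit false

namespace Pool.Agent.Helper57.T5b

open Finset Pool.Agent.Helper27.T4 Pool.Agent.Helper37.T5b
open Pool.Agent.Helper5.ET (bb era)
open Pool.Agent.Helper30.T5b (RT NL BP RT_pos ez pz)
open Pool.Agent.Helper84.T5b Pool.Agent.Helper57.T5 Pool.Agent.Helper42.T5.Pr
open Pool.Agent.Helper22.HW (cN)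
open Pool.Agent.Helper44.T5b (Zw dJ uJ IJ DJ clJ CJ CS NN_add mem_Zw near_R_late)
open Pool.Agent.Helper44.T5 (Theta cln cln_inj)

/-! ## the constant -/

theorem pJ_le_BP (k s : ℕ) (i : JF) : pJ k s i ≤ BP k := by
  rcases i with f | i
  · exact Pool.Agent.Helper30.T5b.pr_le_BP k f
  · refine Fin.cases ?_ (fun f => ?_) i
    · exact (Pool.Agent.Helper30.T5b.buf_lt_BP k).le
    · exact Pool.Agent.Helper30.T5b.pz_le k (s + 1) f

theorem CJ_le (k s : ℕ) : CJ k s ≤ (2 * BP k) ^ 7 := by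
  unfold CJ
  refine (Finset.prod_le_prod' (g := fun _ => 2 * BP k) fun i _ => ?_).trans ?_
  · have := pJ_le_BP k s i
    omega
  · rw [Finset.prod_const, Finset.card_univ, Fintype.card_sum, Fintype.card_fin, Fintype.card_fin]

theorem CS_le (k s t : ℕ) : CS k s t ≤ (2 * BP k) ^ 3 := by
  unfold CS
  refine (Finset.prod_le_prod' (g := fun _ => 2 * BP k) fun i _ => ?_).trans ?_
  · have := Pool.Agent.Helper30.T5b.pz_le k (s - t) i
    omega
  · rw [Finset.prod_const, Finset.card_univ, Fintype.card_fin]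

/-- the constant of the label block -/
noncomputable def CK (k : ℕ) : ℕ :=
  (2 * BP k) ^ 7 * (((2 * BP k) ^ 7 * ((2 * BP k) ^ 3) ^ (k + 1)) * 4)

theorem CK_ge (k s : ℕ) {t : ℕ} (ht : t ≤ k + 1) (R : ℕ) :
    CJ k s * ((CJ k s * ∏ u ∈ range t, CS k s u) * (4 * R)) ≤ CK k * R := by
  have hB : 0 < BP k := Pool.Agent.Helper30.T5b.BP_pos k
  have h1 := CJ_le k s
  have h2 : ∏ u ∈ range t, CS k s u ≤ ((2 * BP k) ^ 3) ^ (k + 1) := by
    refine (Finset.prod_le_prod' (g := fun _ => (2 * BP k) ^ 3) fun i _ => CS_le k s i).trans ?_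
    rw [Finset.prod_const, card_range]
    exact Nat.pow_le_pow_right (by positivity) ht
  unfold CK
  calc CJ k s * ((CJ k s * ∏ u ∈ range t, CS k s u) * (4 * R))
      ≤ (2 * BP k) ^ 7 * (((2 * BP k) ^ 7 * ((2 * BP k) ^ 3) ^ (k + 1)) * (4 * R)) := by gcongr
    _ = _ := by ring

/-! ## one state -/

/-- the counting form for one state -/
theorem cN_self_le {m k l R : ℕ} {w : Key → ℕ} {cl : ℕ → ℕ} {D κ₂ n : ℕ}
    (hR : ∀ n, (reps (Vw m k l w) n).card ≤ R) :
    cN (Zw m k l (rL m k l) w) (Zw m k l (rL m k l) w) (IJ m k l l)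
      (Jn m k (sL m k l) l * LL (QQ m k (sL m k l)) (rL m k l)) D cl κ₂
      (Jn m k (sL m k l) l * LL (QQ m k (sL m k l)) (rL m k l) * n) ≤ R := by
  classical
  have hI : IJ m k l l = 1 := by
    unfold IJ uJ
    exact Finset.prod_eq_one fun i _ => by simp
  have hM0 : 0 < Un m k l := Pool.Agent.Helper27.T5b.Un_pos m k l
  have hM : Jn m k (sL m k l) l * LL (QQ m k (sL m k l)) (rL m k l) = Un m k l := rfl
  rw [hM, Zw_last, hI]
  set M := Un m k l with hMdef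
  refine le_trans (card_le_card_of_injOn (t := reps (Vw m k l w)
    (n - (cl 0 % D + κ₂ * D))) (fun t => (t.2.1 / M, t.2.2 / M)) ?_ ?_) (hR _)
  · intro t ht
    rw [mem_coe, mem_filter, mem_product, mem_product, mem_image, mem_image, mem_range] at ht
    obtain ⟨⟨h0, ⟨v, hv, hv1⟩, ⟨v', hv', hv1'⟩⟩, hs⟩ := ht
    have ht0 : t.1 = 0 := by omega
    rw [ht0, ← hv1, ← hv1', ← Nat.mul_add, ← Nat.mul_add] at hs
    have hs' := Nat.eq_of_mul_eq_mul_left hM0 hs
    have q1 : t.2.1 / M = v := by rw [← hv1, Nat.mul_div_cancel_left _ hM0]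
    have q2 : t.2.2 / M = v' := by rw [← hv1', Nat.mul_div_cancel_left _ hM0]
    rw [mem_coe]
    unfold reps
    rw [mem_filter, mem_product]
    simp only [q1, q2]
    refine ⟨⟨hv, hv'⟩, ?_⟩
    generalize cl 0 % D + κ₂ * D = X at hs' ⊢
    omega
  · intro t ht t' ht' h
    rw [mem_coe, mem_filter, mem_product, mem_product, mem_image, mem_image, mem_range] at ht ht'
    obtain ⟨⟨h0, ⟨v, hv, hv1⟩, ⟨v', hv', hv1'⟩⟩, -⟩ := ht
    obtain ⟨⟨g0, ⟨u, hu, hu1⟩, ⟨u', hu', hu1'⟩⟩, -⟩ := ht'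
    simp only [Prod.mk.injEq] at h
    rw [← hv1, ← hv1', ← hu1, ← hu1', Nat.mul_div_cancel_left _ hM0,
      Nat.mul_div_cancel_left _ hM0, Nat.mul_div_cancel_left _ hM0,
      Nat.mul_div_cancel_left _ hM0] at h
    refine Prod.ext (by omega) (Prod.ext ?_ ?_)
    · rw [← hv1, ← hu1, h.1]
    · rw [← hv1', ← hu1', h.2]

/-! ## the block -/

/-- **all fronts common** (`l' = l` included): bound for the representations -/
theorem bot_rp {m : ℕ} (hm : 0 < m) (k : ℕ) (hk : 1 ≤ k) : ∃ l0 : ℕ, ∀ l l' : ℕ, l0 ≤ l' →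
    l' ≤ l → sL m k l' = sL m k l → bL m k l' = bL m k l →
    ez m (bL m k l) l' = ez m (bL m k l) l →
    ∀ K : Finset Key, BKb m k l K → BKb m k l' K →
    PrLe (Mk m k) K (fun w => ∃ n, CK k * (465 * SS m (bL m k l)) < Rp m k l l' w n)
      (2 * Real.exp (-(SS m (bL m k l) : ℝ))) := by
  classical
  obtain ⟨l1, h1⟩ := bot_two_core hm k
  obtain ⟨l2, h2⟩ := reps_one hm k
  obtain ⟨l3, h3⟩ := near_R_late hm k
  refine ⟨l1 + l2 + l3, fun l l' hl' hll hs hb he K hK hK' => ?_⟩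
  obtain ⟨g1, g2, g3, g4, g5, g6⟩ := Pool.Agent.Helper27.T5b.rL_bounds hm k l
  have hrr : rL m k l' = rL m k l := by unfold rL; rw [hs, hb]
  have hef : ef m k l' (rL m k l) = ef m k l (rL m k l) := by
    unfold ef
    rw [hs, show sL m k l - rL m k l = bL m k l by omega]
    exact he
  rcases Nat.eq_or_lt_of_le hll with h0 | h0
  · subst h0
    refine PrLe_mono (fun r _ hw => ?_) le_rfl (h2 l' (by omega) K hK)
    obtain ⟨n, hn⟩ := hw
    by_contra hcon
    simp only [not_exists, not_lt] at hcon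
    refine absurd ((h3 l' l' (rL m k l') (by omega) le_rfl rfl le_rfl (by omega) le_rfl rfl
      (ext K r) (465 * SS m (bL m k l')) n ?_).trans (CK_ge k (sL m k l') g4 _)) (not_le.2 hn)
    intro θ _ γ N Qi _ κ₂ _
    refine (cN_self_le hcon).trans (Nat.mul_le_mul_right _ (by norm_num))
  · refine PrLe_mono (fun r _ hw => ?_) le_rfl (h1 l l' (by omega) h0 hs hb he K hK hK')
    obtain ⟨n, hn⟩ := hw
    by_contra hcon
    simp only [not_exists, not_and, not_lt] at hcon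
    refine absurd ((h3 l l' (rL m k l) (by omega) hll hs (by rw [hrr]) (by omega) le_rfl hef
      (ext K r) (465 * SS m (bL m k l)) n ?_).trans (CK_ge k (sL m k l) g4 _)) (not_le.2 hn)
    intro θ hθ γ N Qi hQi κ₂ hκ
    exact hcon θ hθ γ N Qi hQi κ₂ hκ

/-- **CaseBot** -/
theorem blk_bot : Blk CaseBot RpC := by
  refine ⟨1, 2, fun m hm => ?_⟩
  have hm0 : 0 < m := by omega
  obtain ⟨l1, h1⟩ := bot_rp hm0 (m ^ 2) (Nat.one_le_pow _ _ hm0)
  obtain ⟨l2, h2⟩ := Pool.Agent.Helper27.T5b.exists_bL hm0 (m ^ 2) 0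
  refine pairOK_of_last hm (C := ((CK (m ^ 2) * 465 : ℕ) : ℝ)) (m' := 2) (Nat.cast_nonneg _)
    (by norm_num) (l0 := l1 + l2) ?_
  intro l l' hl' hll hP K hK hK'
  obtain ⟨-, hs, hb, ⟨-, -, he⟩, -⟩ := hP
  have hb1 := (h2 l (by omega)).1
  have hb2 := (h2 l' (by omega)).1
  refine PrLe_mono (fun r _ hw => ?_) le_rfl (h1 l l' (by omega) hll hs hb he K
    (BKb_of hm0 hb1 hK) (BKb_of hm0 hb2 hK'))
  obtain ⟨c, ⟨n, rfl⟩, hlt⟩ := hw
  refine ⟨n, ?_⟩
  have h3 : ((CK (m ^ 2) * (465 * SS m (bL m (m ^ 2) l)) : ℕ) : ℝ) <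
      (Rp m (m ^ 2) l l' (ext K r) n : ℝ) := by
    refine lt_of_eq_of_lt ?_ hlt
    push_cast
    ring
  exact_mod_cast h3

end Pool.Agent.Helper57.T5b
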