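import Pool.Agent.Helper66.T5.PpNum
import Pool.Agent.Helper57.T5.BotKey
import Pool.Agent.Helper87.SL.NumDefs
import Pool.Agent.Helper63.T5.SLNumInst

/-!
# T5b: the number `PP * A * pc` for two random windows of the same size, abstract form
-/

set_option autoImplicit false

namespace Pool.Agent.Helper57.T5b

open Finset Pool.Agent.Helper27.T4 Pool.Agent.Helper22.HW
  Pool.Agent.Helper22.SL Pool.Agent.Helper57.T5 Pool.Agent.Helper42.T5.Pr
open Pool.Agent.Helper63.T5 (lam lam_gt lam_lt)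
open Pool.Agent.Helper66.T5 (tail_exp exp_two_lt exp_neg_one_gt)
open Pool.Agent.Helper87.SL (NumL)

open Real in
/-- the two terms of the condition on the number `t` -/
theorem pp_main2 {Ih If K0 A pc φ d s s' w c9 y W t0 mu : ℝ}
    (hy : 1 ≤ y) (hW : 1 ≤ W) (ht0 : t0 = 200 * y) (hIh0 : 1 ≤ Ih)
    (hIh : Ih ≤ exp ((d - s') / 2) + 1) (hK0 : 1 ≤ K0) (hA0 : 0 ≤ A) (hA : A ≤ K0)
    (hφ : φ = exp (s' - s - d)) (hpc0 : 0 ≤ pc) (hpc : pc ≤ 2 * φ) (hφw : φ ≤ exp (-(w / 512)))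
    (hIf : If ≤ exp (d / 2)) (hIf0 : 0 ≤ If)
    (hmu : mu ≤ 16 * 1000038 * (If * φ⁻¹) * exp (-d)) (hd : y * c9 ≤ exp (d / 2))
    (hs : 0.0107 * w ≤ s) (hs' : 0.0107 * w ≤ s') (hsu' : s' ≤ 0.0128 * w) (hd0 : 0 ≤ d)
    (hw : 0 ≤ w)
    (hc9 : 30 * 720000000 * 200 * K0 ≤ c9)
    (hl1 : 30 * 720000000 * 200 * K0 * y * exp (-(0.00535 * w)) ≤ 1)
    (hl2 : 20 * 6 * 200 * 101 * 2 * K0 * y ^ 2 * W * exp (-(w / 512)) ≤ 1) :
    (2 * (Ih * t0) + 1) * A * pc * (exp 2 * mu + 100 * y * W + 1) ≤ exp (-1) := by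
  have hφ0 : 0 < φ := by rw [hφ]; exact exp_pos _
  have ht1 : 1 ≤ t0 := by rw [ht0]; linarith
  have hIt : 1 ≤ Ih * t0 := by nlinarith
  have e2 := exp_two_lt
  have e1 := exp_neg_one_gt
  -- the factor
  have hZ : (2 * (Ih * t0) + 1) * A * pc ≤ 6 * (Ih * t0) * K0 * φ := by
    have a1 : (2 * (Ih * t0) + 1) * A ≤ 3 * (Ih * t0) * K0 := by
      have : 2 * (Ih * t0) + 1 ≤ 3 * (Ih * t0) := by linarith
      exact mul_le_mul this hA hA0 (by positivity)
    calc (2 * (Ih * t0) + 1) * A * pc ≤ 3 * (Ih * t0) * K0 * (2 * φ) :=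
          mul_le_mul a1 hpc hpc0 (by positivity)
      _ = _ := by ring
  have hZ0 : 0 ≤ 6 * (Ih * t0) * K0 * φ := by positivity
  -- first term
  have hmu2 : φ * mu ≤ 16 * 1000038 * exp (-(d / 2)) := by
    have a1 : φ * mu ≤ φ * (16 * 1000038 * (If * φ⁻¹) * exp (-d)) :=
      mul_le_mul_of_nonneg_left hmu hφ0.le
    have a2 : φ * (16 * 1000038 * (If * φ⁻¹) * exp (-d)) = 16 * 1000038 * (If * exp (-d)) := by
      field_simp
    have a3 : If * exp (-d) ≤ exp (-(d / 2)) := by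
      calc If * exp (-d) ≤ exp (d / 2) * exp (-d) := mul_le_mul_of_nonneg_right hIf (exp_pos _).le
        _ = exp (-(d / 2)) := by rw [← Real.exp_add]; congr 1; ring
    rw [a2] at a1
    linarith
  have hIe : Ih * exp (-(d / 2)) ≤ exp (-(0.00535 * w)) + exp (-(d / 2)) := by
    calc Ih * exp (-(d / 2)) ≤ (exp ((d - s') / 2) + 1) * exp (-(d / 2)) :=
          mul_le_mul_of_nonneg_right hIh (exp_pos _).le
      _ = exp (-(s' / 2)) + exp (-(d / 2)) := by
          rw [add_mul, ← Real.exp_add, one_mul]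
          congr 2
          ring
      _ ≤ _ := by
          have : exp (-(s' / 2)) ≤ exp (-(0.00535 * w)) := Real.exp_le_exp.2 (by linarith)
          linarith
  have hd2 : 30 * 720000000 * 200 * K0 * y * exp (-(d / 2)) ≤ 1 := by
    have a1 : exp (-(d / 2)) = (exp (d / 2))⁻¹ := Real.exp_neg _
    rw [a1, ← div_eq_mul_inv, div_le_one (exp_pos _)]
    refine le_trans ?_ hd
    calc 30 * 720000000 * 200 * K0 * y ≤ c9 * y :=
          mul_le_mul_of_nonneg_right hc9 (by linarith)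
      _ = _ := mul_comm _ _
  have T1 : 6 * (Ih * t0) * K0 * φ * (exp 2 * mu) ≤ 1 / 15 := by
    have a1 : 6 * (Ih * t0) * K0 * φ * (exp 2 * mu) =
        6 * exp 2 * t0 * K0 * (Ih * (φ * mu)) := by ring
    have a2 : Ih * (φ * mu) ≤ 16 * 1000038 * (exp (-(0.00535 * w)) + exp (-(d / 2))) := by
      calc Ih * (φ * mu) ≤ Ih * (16 * 1000038 * exp (-(d / 2))) :=
            mul_le_mul_of_nonneg_left hmu2 (by linarith)
        _ = 16 * 1000038 * (Ih * exp (-(d / 2))) := by ring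
        _ ≤ _ := mul_le_mul_of_nonneg_left hIe (by norm_num)
    have a3 : 6 * exp 2 * t0 * K0 * (Ih * (φ * mu)) ≤
        6 * exp 2 * t0 * K0 * (16 * 1000038 * (exp (-(0.00535 * w)) + exp (-(d / 2)))) :=
      mul_le_mul_of_nonneg_left a2 (by positivity)
    have a4 : 6 * exp 2 * t0 * K0 * (16 * 1000038 * (exp (-(0.00535 * w)) + exp (-(d / 2)))) ≤
        720000000 * (200 * y) * K0 * (exp (-(0.00535 * w)) + exp (-(d / 2))) := by
      rw [ht0]
      have b1 : 6 * exp 2 * (16 * 1000038) ≤ 720000000 := by linarith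
      have b2 : 0 ≤ (200 * y) * K0 * (exp (-(0.00535 * w)) + exp (-(d / 2))) := by positivity
      nlinarith [mul_le_mul_of_nonneg_right b1 b2]
    rw [a1]
    refine a3.trans (a4.trans ?_)
    have a5 : 720000000 * (200 * y) * K0 * (exp (-(0.00535 * w)) + exp (-(d / 2))) =
        (30 * 720000000 * 200 * K0 * y * exp (-(0.00535 * w)) +
          30 * 720000000 * 200 * K0 * y * exp (-(d / 2))) / 30 := by ring
    rw [a5]
    linarith
  -- second term
  have hIφ : Ih * φ ≤ 2 * exp (-(w / 512)) := by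
    calc Ih * φ ≤ (exp ((d - s') / 2) + 1) * φ := mul_le_mul_of_nonneg_right hIh hφ0.le
      _ = exp (-(d / 2) + s' / 2 - s) + φ := by
          rw [add_mul, one_mul, hφ, ← Real.exp_add]
          congr 2
          ring
      _ ≤ exp (-(w / 512)) + exp (-(w / 512)) := by
          refine add_le_add (Real.exp_le_exp.2 ?_) hφw
          linarith
      _ = _ := by ring
  have T2 : 6 * (Ih * t0) * K0 * φ * (100 * y * W + 1) ≤ 1 / 20 := by
    have a1 : 100 * y * W + 1 ≤ 101 * y * W := by nlinarith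
    calc 6 * (Ih * t0) * K0 * φ * (100 * y * W + 1)
        ≤ 6 * (Ih * t0) * K0 * φ * (101 * y * W) := mul_le_mul_of_nonneg_left a1 hZ0
      _ = 6 * 101 * t0 * K0 * y * W * (Ih * φ) := by ring
      _ ≤ 6 * 101 * t0 * K0 * y * W * (2 * exp (-(w / 512))) :=
          mul_le_mul_of_nonneg_left hIφ (by positivity)
      _ = (20 * 6 * 200 * 101 * 2 * K0 * y ^ 2 * W * exp (-(w / 512))) / 20 := by
          rw [ht0]; ring
      _ ≤ 1 / 20 := by linarith
  rcases le_or_gt 0 (exp 2 * mu + 100 * y * W + 1) with hpos | hneg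
  · calc (2 * (Ih * t0) + 1) * A * pc * (exp 2 * mu + 100 * y * W + 1)
        ≤ 6 * (Ih * t0) * K0 * φ * (exp 2 * mu + 100 * y * W + 1) :=
          mul_le_mul_of_nonneg_right hZ hpos
      _ = 6 * (Ih * t0) * K0 * φ * (exp 2 * mu) +
          6 * (Ih * t0) * K0 * φ * (100 * y * W + 1) := by ring
      _ ≤ exp (-1) := by linarith
  · have : 0 ≤ (2 * (Ih * t0) + 1) * A * pc := by positivity
    exact (mul_nonpos_of_nonneg_of_nonpos this hneg.le).trans (exp_pos _).le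

open Real in
/-- the second part of the bound -/
theorem pp_tail2 {hi mu y W : ℝ} {t0 : ℕ} (hy : 1 ≤ y) (hW : 1 ≤ W) (ht0 : (t0 : ℝ) = 200 * y)
    (hi0 : 0 ≤ hi) (hhi : hi ≤ exp (28 * W)) (hmu0 : 0 ≤ mu) (hmu : mu ≤ exp (-W)) :
    hi * (mu ^ (t0 + 1) / ((t0 + 1).factorial : ℝ)) ≤ exp (-(100 * y * W)) := by
  have h1 : (1 : ℝ) ≤ ((t0 + 1).factorial : ℝ) := by
    exact_mod_cast Nat.succ_le_of_lt (Nat.factorial_pos _)
  have h2 : mu ^ (t0 + 1) / ((t0 + 1).factorial : ℝ) ≤ mu ^ (t0 + 1) :=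
    div_le_self (by positivity) h1
  have h3 : mu ^ (t0 + 1) ≤ exp (-(W * (t0 + 1))) := by
    calc mu ^ (t0 + 1) ≤ exp (-W) ^ (t0 + 1) := pow_le_pow_left₀ hmu0 hmu _
      _ = exp (-(W * (t0 + 1))) := by
          rw [← Real.exp_nat_mul]
          congr 1
          push_cast
          ring
  calc hi * (mu ^ (t0 + 1) / ((t0 + 1).factorial : ℝ)) ≤ exp (28 * W) * exp (-(W * (t0 + 1))) :=
        mul_le_mul hhi (h2.trans h3) (by positivity) (exp_pos _).le
    _ = exp (28 * W - W * (t0 + 1)) := by rw [← Real.exp_add]; congr 1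
    _ ≤ exp (-(100 * y * W)) := by
        apply Real.exp_le_exp.2
        rw [ht0]
        nlinarith

open Real in
/-- the number `t` -/
theorem pp_floor2 {Z mu y W : ℝ} {tt : ℕ} (hZ : 0 < Z) (htt : tt = ⌊exp (-1) / Z⌋₊)
    (hmu : 0 ≤ mu) (hyW : 0 ≤ 100 * y * W)
    (h : Z * (exp 2 * mu + 100 * y * W + 1) ≤ exp (-1)) :
    exp 2 * mu ≤ tt ∧ 100 * y * W ≤ tt ∧ Z * tt ≤ exp (-1) := by
  have h1 : exp 2 * mu + 100 * y * W + 1 ≤ exp (-1) / Z := by
    rw [le_div_iff₀ hZ, mul_comm]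
    exact h
  have h2 : exp (-1) / Z < tt + 1 := by
    rw [htt]
    exact Nat.lt_floor_add_one _
  have h3 : (tt : ℝ) ≤ exp (-1) / Z := by
    rw [htt]
    exact Nat.floor_le (by positivity)
  have h4 : 0 ≤ exp 2 * mu := by positivity
  refine ⟨by linarith, by linarith, ?_⟩
  rw [le_div_iff₀ hZ] at h3
  linarith

/-- **the number `PP * A * pc` for two random windows with the same ends** -/
theorem pp_abs {κ κ' : Type*} [DecidableEq κ] {Mf : κ → ℕ} {K : Finset κ} {lo hi : Bool → ℕ}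
    {bk : Bool → ℕ → ℕ → κ} (hM : ∀ q, 0 < Mf q) (hWin : WinD Mf K lo hi bk)
    {P : Pr κ'} {Mf' : κ' → ℕ} (hP : P.Ok Mf') {I : ℕ} {X Ir : ℕ → ℕ} (hX : Tg P I X Ir)
    {v : ℕ} (hlo0 : lo false = v) (hlo1 : lo true = v) (hhi0 : hi false ≤ 16 * v)
    (hhi1 : hi true ≤ 16 * v) {q : ℕ} (hMq : P.M = P.M' * q) (hq : 0 < q)
    {d W0 W1 s s' K0 : ℝ} (hN : NumL P d (W1 * lam) W0 s s' K0) (hh : 1 ≤ P.h)
    (hjump : s' - s - d ≤ -(W1 * lam / 512))
    (hvl : Real.exp (0.99 * (W1 * lam)) ≤ v) (hvu : (v : ℝ) ≤ Real.exp (W1 * lam))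
    (hd : d ≤ 0.351 * (W1 * lam)) (hW1 : 10 ^ 7 ≤ W1)
    (hI : (I : ℝ) ≤ Real.exp (d / 2)) (hIr1 : 1 ≤ Ir P.h)
    (hIr : (Ir P.h : ℝ) ≤ Real.exp ((d - s') / 2) + 1)
    {Y : ℕ} (hY : 1 ≤ Y) {c9 : ℝ} (hc9 : 30 * 720000000 * 200 * K0 ≤ c9)
    (hY9 : (Y : ℝ) * c9 ≤ Real.exp (d / 2))
    (hlate : 30 * 720000000 * 200 * K0 * (Y : ℝ) ^ 2 * W1 * Real.exp (-(W1 / 40)) ≤ 1) :
    PrLe Mf K (fun w => Real.exp (-1) <
        (PP P I X (Wd lo hi bk w false) (Wd lo hi bk w true) : ℝ) * P.A P.h * P.pc P.h)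
      (3 * Real.exp (-(100 * (Y : ℝ) * W1))) := by
  classical
  have hlam := lam_gt
  have hlam2 := lam_lt
  set w1 : ℝ := W1 * lam with hw1
  have hW13 : 13 * W1 ≤ w1 := by rw [hw1]; nlinarith
  have hw14 : w1 ≤ 14 * W1 := by rw [hw1]; nlinarith
  have hw0 : 0 ≤ w1 := by linarith
  have hY1 : (1 : ℝ) ≤ Y := by exact_mod_cast hY
  have hK1 := hN.K1
  have hd0 : 0 ≤ d := hN.D0
  have hM'pos : (0 : ℝ) < P.M' := by exact_mod_cast hN.M'0
  have hMpos : (0 : ℝ) < P.M := by rw [hN.M]; positivity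
  have hFpos : (0 : ℝ) < P.F P.h := by rw [hN.F]; positivity
  have hF'pos : (0 : ℝ) < P.F' P.h := by rw [hN.F']; positivity
  have hφeq : (P.F' P.h : ℝ) / P.F P.h = Real.exp (s' - s - d) := by
    rw [hN.F, hN.F', hN.M, mul_assoc, mul_div_mul_left _ _ hM'pos.ne', ← Real.exp_add,
      ← Real.exp_sub]
    congr 1
    ring
  have hφw : Real.exp (s' - s - d) ≤ Real.exp (-(w1 / 512)) := Real.exp_le_exp.2 hjump
  -- the price
  obtain ⟨t1, ht1⟩ : ∃ t1, P.h = t1 + 1 := ⟨P.h - 1, by omega⟩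
  have hpce : P.pc P.h = (P.F' P.h : ℝ) / P.F P.h + 1 / (P.q t1 2 : ℝ) := by
    rw [ht1]
    rfl
  have hpc : P.pc P.h ≤ 2 * Real.exp (s' - s - d) := by
    have e2 := hN.q2 t1 ht1
    have e3 := hN.deep
    have e4 : 1 / (P.q t1 2 : ℝ) ≤ Real.exp (s' - s - d) := by
      rw [one_div]
      refine (inv_anti₀ (Real.exp_pos _) e2).trans ?_
      rw [← Real.exp_neg]
      apply Real.exp_le_exp.2
      have e5 := hN.su
      have e6 := hN.sl'
      linarith
    rw [hpce, hφeq]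
    linarith
  have hpc0 : 0 < P.pc P.h := by
    rw [hpce]
    have e2 : (0 : ℝ) < (P.q t1 2 : ℝ) := (Real.exp_pos _).trans_le (hN.q2 t1 ht1)
    positivity
  have hA0 : 0 < P.A P.h := by
    unfold Pr.A
    refine Finset.prod_pos (fun r _ => ?_)
    have e1 : (0 : ℝ) < P.p r 0 := by exact_mod_cast (hP.prime r 0).pos
    have e2 : (0 : ℝ) < P.p r 1 := by exact_mod_cast (hP.prime r 1).pos
    exact mul_pos (mul_pos (by norm_num) e1) e2
  -- the windows
  have hv0 : (0 : ℝ) < v := (Real.exp_pos _).trans_le hvl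
  have hv1 : 1 ≤ v := by exact_mod_cast (show (0 : ℝ) < v from hv0)
  have hsv : Real.exp (0.495 * w1) ≤ Real.sqrt v := by
    rw [show 0.495 * w1 = 0.99 * w1 * (1 / 2) by ring, Real.exp_mul, ← Real.sqrt_eq_rpow]
    exact Real.sqrt_le_sqrt hvl
  have hsv0 : 0 < Real.sqrt v := (Real.exp_pos _).trans_le hsv
  have hsvv : Real.sqrt v * Real.sqrt v = v := Real.mul_self_sqrt hv0.le
  have h16' : (16 : ℝ) ≤ Real.exp W1 := by
    have e1 := Real.add_one_le_exp W1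
    linarith
  have hhi : ∀ s, ((hi s : ℕ) : ℝ) ≤ 16 * v := by
    intro s
    cases s
    · exact_mod_cast hhi0
    · exact_mod_cast hhi1
  have hhi28 : ∀ s, ((hi s : ℕ) : ℝ) ≤ Real.exp (28 * W1) := by
    intro s
    calc ((hi s : ℕ) : ℝ) ≤ 16 * v := hhi s
      _ ≤ Real.exp W1 * Real.exp w1 := mul_le_mul h16' hvu hv0.le (Real.exp_pos _).le
      _ = Real.exp (W1 + w1) := by rw [Real.exp_add]
      _ ≤ Real.exp (28 * W1) := Real.exp_le_exp.2 (by linarith)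
  -- the modulus
  have hqd : (q : ℝ) = Real.exp d := by
    have e1 : (P.M' : ℝ) * q = P.M' * Real.exp d := by
      rw [← hN.M, hMq]
      push_cast
      ring
    exact mul_left_cancel₀ hM'pos.ne' e1
  -- numbers
  set t0 : ℕ := 200 * Y with ht0
  have ht0r : (t0 : ℝ) = 200 * (Y : ℝ) := by rw [ht0]; push_cast; ring
  set Ih : ℕ := Ir P.h with hIh
  set Z : ℝ := (2 * ((Ih : ℝ) * (t0 : ℝ)) + 1) * P.A P.h * P.pc P.h with hZ
  have hZ0 : 0 < Z := by positivity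
  set tt : ℕ := ⌊Real.exp (-1) / Z⌋₊ with htt
  set mu : ℝ := ((I * (4 * (P.F P.h / P.F' P.h)) : ℕ) : ℝ) *
      (((hi true / q + 1 : ℕ) : ℝ) * ((2 / Real.sqrt v) * (2 / Real.sqrt v))) with hmu
  have hmu0 : 0 ≤ mu := mul_nonneg (Nat.cast_nonneg _) (mul_nonneg (Nat.cast_nonneg _)
      (mul_nonneg (div_nonneg (by norm_num) hsv0.le) (div_nonneg (by norm_num) hsv0.le)))
  have key := bot_arc (M := Mf) (K := K) hM hWin (by rw [hlo0]; exact hv1)
    (by rw [hlo1]; exact hv1) hP hMq hq ({()} : Finset Unit) (fun _ => X) (fun _ _ => hX) tt t0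
    mu ((arcL P : ℝ) * (2 / Real.sqrt v)) (((arcL P / q + 1 : ℕ) : ℝ) * (2 / Real.sqrt v))
    (by rw [hlo0, hlo1]) (by rw [hlo1]) (by rw [hlo0])
  -- real forms of the numbers
  have hIh1 : (1 : ℝ) ≤ (Ih : ℝ) := by exact_mod_cast hIr1
  have hdiv1 : ((P.F P.h / P.F' P.h : ℕ) : ℝ) = (Real.exp (s' - s - d))⁻¹ := by
    rw [← hφeq, inv_div, Nat.cast_div (hP.F'F P.h le_rfl) hF'pos.ne']
  have hmule : mu ≤ 16 * 1000038 * ((I : ℝ) * (Real.exp (s' - s - d))⁻¹) * Real.exp (-d) := by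
    have e1 : ((hi true / q + 1 : ℕ) : ℝ) * ((2 / Real.sqrt v) * (2 / Real.sqrt v)) ≤
        4 * 1000038 * Real.exp (-d) := by
      have e2 : ((hi true / q + 1 : ℕ) : ℝ) ≤ 1000037 * v / Real.exp d + 1 := by
        push_cast
        have e3 : ((hi true / q : ℕ) : ℝ) ≤ ((hi true : ℕ) : ℝ) / (q : ℝ) := Nat.cast_div_le
        rw [hqd] at e3
        have e4 : ((hi true : ℕ) : ℝ) / Real.exp d ≤ 1000037 * v / Real.exp d :=
          div_le_div_of_nonneg_right (by have := hhi true; linarith) (Real.exp_pos d).le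
        linarith
      have e5 : (2 / Real.sqrt v) * (2 / Real.sqrt v) = 4 / (v : ℝ) := by
        rw [div_mul_div_comm, hsvv]
        norm_num
      rw [e5]
      have e6 : (1 : ℝ) ≤ v * Real.exp (-d) := by
        have e7 : Real.exp d ≤ v := (Real.exp_le_exp.2 (by linarith)).trans hvl
        have e8 : Real.exp d * Real.exp (-d) = 1 := by rw [← Real.exp_add]; simp
        nlinarith [Real.exp_pos (-d)]
      calc ((hi true / q + 1 : ℕ) : ℝ) * (4 / (v : ℝ))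
          ≤ (1000037 * v / Real.exp d + 1) * (4 / (v : ℝ)) :=
            mul_le_mul_of_nonneg_right e2 (by positivity)
        _ ≤ (1000037 * v * Real.exp (-d) + v * Real.exp (-d)) * (4 / (v : ℝ)) := by
            refine mul_le_mul_of_nonneg_right ?_ (by positivity)
            rw [Real.exp_neg, div_eq_mul_inv]
            rw [Real.exp_neg] at e6
            linarith
        _ = 4 * 1000038 * Real.exp (-d) := by
            field_simp
            ring
    have e9 : ((I * (4 * (P.F P.h / P.F' P.h)) : ℕ) : ℝ) =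
        4 * ((I : ℝ) * (Real.exp (s' - s - d))⁻¹) := by
      rw [Nat.cast_mul, Nat.cast_mul, hdiv1]
      push_cast
      ring
    rw [hmu, e9]
    calc 4 * ((I : ℝ) * (Real.exp (s' - s - d))⁻¹) *
        (((hi true / q + 1 : ℕ) : ℝ) * ((2 / Real.sqrt v) * (2 / Real.sqrt v)))
        ≤ 4 * ((I : ℝ) * (Real.exp (s' - s - d))⁻¹) *
          (4 * 1000038 * Real.exp (-d)) := mul_le_mul_of_nonneg_left e1 (by positivity)
      _ = _ := by ring
  have hYY : (Y : ℝ) ≤ (Y : ℝ) ^ 2 * W1 := by nlinarith [mul_le_mul hY1 hY1 (by norm_num) (by linarith)]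
  have hl1 : 30 * 720000000 * 200 * K0 * (Y : ℝ) * Real.exp (-(0.00535 * w1)) ≤ 1 := by
    refine le_trans ?_ hlate
    have e2 : Real.exp (-(0.00535 * w1)) ≤ Real.exp (-(W1 / 40)) := Real.exp_le_exp.2 (by linarith)
    calc 30 * 720000000 * 200 * K0 * (Y : ℝ) * Real.exp (-(0.00535 * w1))
        ≤ 30 * 720000000 * 200 * K0 * ((Y : ℝ) ^ 2 * W1) * Real.exp (-(W1 / 40)) := by gcongr
      _ = _ := by ring
  have hl2 : 20 * 6 * 200 * 101 * 2 * K0 * (Y : ℝ) ^ 2 * W1 * Real.exp (-(w1 / 512)) ≤ 1 := by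
    refine le_trans ?_ hlate
    have e2 : Real.exp (-(w1 / 512)) ≤ Real.exp (-(W1 / 40)) := Real.exp_le_exp.2 (by linarith)
    have e3 : 20 * 6 * 200 * 101 * 2 * K0 ≤ 30 * 720000000 * 200 * K0 := by nlinarith
    have e4 : (0 : ℝ) ≤ (Y : ℝ) ^ 2 * W1 := by positivity
    calc 20 * 6 * 200 * 101 * 2 * K0 * (Y : ℝ) ^ 2 * W1 * Real.exp (-(w1 / 512))
        = (20 * 6 * 200 * 101 * 2 * K0) * ((Y : ℝ) ^ 2 * W1) * Real.exp (-(w1 / 512)) := by ring
      _ ≤ (30 * 720000000 * 200 * K0) * ((Y : ℝ) ^ 2 * W1) * Real.exp (-(W1 / 40)) := by gcongr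
      _ = _ := by ring
  have hmain := pp_main2 (Ih := (Ih : ℝ)) (If := (I : ℝ)) (K0 := K0)
    (A := P.A P.h) (pc := P.pc P.h) (φ := Real.exp (s' - s - d)) (d := d) (s := s) (s' := s')
    (w := w1) (c9 := c9) (y := (Y : ℝ)) (W := W1) (t0 := (t0 : ℝ)) (mu := mu)
    hY1 (by linarith) ht0r hIh1 hIr hK1 hA0.le hN.A rfl hpc0.le hpc
    hφw hI (Nat.cast_nonneg _) hmule hY9 hN.sl hN.sl' hN.su' hd0 hw0 hc9 hl1 hl2
  have hx3 : (0 : ℝ) ≤ 100 * (Y : ℝ) * W1 := by positivity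
  obtain ⟨f1, f2, f3⟩ := pp_floor2 hZ0 htt hmu0 hx3 hmain
  have h2v : 2 / Real.sqrt v ≤ 2 * Real.exp (-(0.495 * w1)) := by
    rw [Real.exp_neg, div_eq_mul_inv]
    exact mul_le_mul_of_nonneg_left (inv_anti₀ (Real.exp_pos _) hsv) (by norm_num)
  have h2v0 : 0 ≤ 2 / Real.sqrt v := div_nonneg (by norm_num) hsv0.le
  have harc : (arcL P : ℝ) = 7 * Real.exp (d + s) := by
    unfold arcL
    rw [Nat.cast_mul, Nat.cast_div ((hP.M'F' P.h le_rfl).trans (hP.F'F P.h le_rfl)) hM'pos.ne',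
      hN.F, hN.M, Real.exp_add]
    push_cast
    field_simp
  have hsu := hN.su
  have h16 : (16 : ℝ) ≤ Real.exp (0.7 * W1) := by
    have e1 := Real.add_one_le_exp (0.7 * W1)
    linarith
  have hmu1 : (arcL P : ℝ) * (2 / Real.sqrt v) ≤ Real.exp (-W1) := by
    rw [harc]
    calc 7 * Real.exp (d + s) * (2 / Real.sqrt v)
        ≤ 7 * Real.exp (d + s) * (2 * Real.exp (-(0.495 * w1))) :=
          mul_le_mul_of_nonneg_left h2v (by positivity)
      _ = 14 * Real.exp (d + s + -(0.495 * w1)) := by rw [Real.exp_add (d + s)]; ring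
      _ ≤ Real.exp (0.7 * W1) * Real.exp (-(1.7 * W1)) := by
          refine mul_le_mul (by linarith) (Real.exp_le_exp.2 (by linarith)) (Real.exp_pos _).le
            (Real.exp_pos _).le
      _ = Real.exp (-W1) := by rw [← Real.exp_add]; congr 1; ring
  have hmu2 : ((arcL P / q + 1 : ℕ) : ℝ) * (2 / Real.sqrt v) ≤ Real.exp (-W1) := by
    have e1 : ((arcL P / q + 1 : ℕ) : ℝ) ≤ 8 * Real.exp s := by
      push_cast
      have e2 : ((arcL P / q : ℕ) : ℝ) ≤ (arcL P : ℝ) / (q : ℝ) := Nat.cast_div_le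
      rw [harc, hqd, mul_div_assoc, ← Real.exp_sub, add_sub_cancel_left] at e2
      have e3 : (1 : ℝ) ≤ Real.exp s := Real.one_le_exp (by
        have := hN.sl
        linarith)
      linarith
    calc ((arcL P / q + 1 : ℕ) : ℝ) * (2 / Real.sqrt v)
        ≤ 8 * Real.exp s * (2 * Real.exp (-(0.495 * w1))) :=
          mul_le_mul e1 h2v h2v0 (by positivity)
      _ = 16 * Real.exp (s + -(0.495 * w1)) := by rw [Real.exp_add s]; ring
      _ ≤ Real.exp (0.7 * W1) * Real.exp (-(1.7 * W1)) := by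
          refine mul_le_mul h16 (Real.exp_le_exp.2 (by linarith)) (Real.exp_pos _).le
            (Real.exp_pos _).le
      _ = Real.exp (-W1) := by rw [← Real.exp_add]; congr 1; ring
  refine PrLe_mono ?_ ?_ key
  · intro r _ hr
    by_contra hcon
    refine absurd hr (not_lt.2 ?_)
    have e2 : ((PP P I X (Wd lo hi bk (Pool.Agent.Helper42.T5.Pr.ext K r) false)
        (Wd lo hi bk (Pool.Agent.Helper42.T5.Pr.ext K r) true) : ℕ) : ℝ) ≤
        (2 * ((Ih : ℝ) * (t0 : ℝ)) + 1) * tt := by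
      have e3 : ¬ (2 * (Ir P.h * t0) + 1) * tt <
          PP P I X (Wd lo hi bk (Pool.Agent.Helper42.T5.Pr.ext K r) false)
          (Wd lo hi bk (Pool.Agent.Helper42.T5.Pr.ext K r) true) := fun h => hcon ⟨(), mem_singleton_self _, h⟩
      exact_mod_cast not_lt.1 e3
    calc _ ≤ (2 * ((Ih : ℝ) * (t0 : ℝ)) + 1) * tt * P.A P.h * P.pc P.h := by
          refine mul_le_mul_of_nonneg_right (mul_le_mul_of_nonneg_right e2 hA0.le) hpc0.le
      _ = Z * tt := by rw [hZ]; ring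
      _ ≤ Real.exp (-1) := f3
  · have t1 := tail_exp hmu0 f1
    have t2 := pp_tail2 (y := (Y : ℝ)) (W := W1) (t0 := t0) hY1 (by linarith) ht0r
      (Nat.cast_nonneg _) (hhi28 true) (mul_nonneg (Nat.cast_nonneg _) h2v0) hmu1
    have t3 := pp_tail2 (y := (Y : ℝ)) (W := W1) (t0 := t0) hY1 (by linarith) ht0r
      (Nat.cast_nonneg _) (hhi28 false) (mul_nonneg (Nat.cast_nonneg _) h2v0) hmu2
    have t4 : Real.exp (-(tt : ℝ)) ≤ Real.exp (-(100 * (Y : ℝ) * W1)) :=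
      Real.exp_le_exp.2 (by linarith)
    rw [card_singleton, Nat.cast_one, one_mul]
    linarith

end Pool.Agent.Helper57.T5b
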