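import Pool.Agent.Helper57.T5b.Last

/-!
# T5b (MP_12a1af): the leaf of the random windows, all distances
-/

set_option autoImplicit false

namespace Pool.Agent.Helper57.T5b

open Finset Pool.Agent.Helper27.T4 Pool.Agent.Helper37.T5b
open Pool.Agent.Helper5.ET (bb era)
open Pool.Agent.Helper30.T5b (RT NL BP RT_pos)
open Pool.Agent.Helper84.T5b Pool.Agent.Helper57.T5 Pool.Agent.Helper42.T5.Pr
open Pool.Agent.Helper22.HW (cN)

/-- the pairs of window elements with a given sum -/
noncomputable def vprs (m k l l' : ℕ) (w : Key → ℕ) (n : ℕ) : Finset (ℕ × ℕ) :=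
  (Vw m k l w ×ˢ Vw m k l' w).filter (fun q => Un m k l * q.1 + Un m k l' * q.2 = n)

theorem mem_Vw_lt {m k l v : ℕ} {w : Key → ℕ} (hv : v ∈ Vw m k l w) :
    RT m k (bL m k l) ≤ v ∧ v < 16 * RT m k (bL m k l) := by
  unfold Vw Pool.Agent.Helper50.T5.VW at hv
  rw [mem_filter, mem_Ico] at hv
  exact hv.1

/-- large quotient of the units -/
theorem vprs_det {m k l l' q : ℕ} (w : Key → ℕ) (n : ℕ) (hU : Un m k l = Un m k l' * q)
    (h : RT m k (bL m k l') ≤ q) : (vprs m k l l' w n).card ≤ 17 := by
  classical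
  have hM : 0 < Un m k l' := Pool.Agent.Helper27.T5b.Un_pos m k l'
  have hq0 : 0 < q := (RT_pos m k _).trans_le h
  set M := Un m k l' with hMdef
  have hform : ∀ x ∈ vprs m k l l' w n, q * x.1 + x.2 = n / M ∧ x.2 < 16 * q := by
    intro x hx
    unfold vprs at hx
    rw [mem_filter, mem_product] at hx
    obtain ⟨⟨h1, h2⟩, h3⟩ := hx
    have h4 : n = M * (q * x.1 + x.2) := by
      rw [← h3, hU]
      ring
    refine ⟨?_, (mem_Vw_lt h2).2.trans_le (Nat.mul_le_mul_left _ h)⟩
    rw [h4, Nat.mul_div_cancel_left _ hM]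
  set N := n / M with hN
  refine le_trans (card_le_card_of_injOn (t := Ico (N / q - 16) (N / q + 1))
    (fun x => x.1) ?_ ?_) ?_
  · intro x hx
    obtain ⟨h1, h2⟩ := hform x hx
    rw [mem_coe, mem_Ico]
    have h3 : x.1 ≤ N / q := by
      rw [Nat.le_div_iff_mul_le hq0, mul_comm]
      omega
    have h4 : N / q < x.1 + 16 := by
      rw [Nat.div_lt_iff_lt_mul hq0]
      calc N = q * x.1 + x.2 := h1.symm
        _ < q * x.1 + 16 * q := by omega
        _ = (x.1 + 16) * q := by ring
    show N / q - 16 ≤ x.1 ∧ x.1 < N / q + 1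
    omega
  · intro x hx y hy hxy
    have h1 := (hform x hx).1
    have h2 := (hform y hy).1
    have h3 : x.1 = y.1 := hxy
    rw [h3] at h1
    exact Prod.ext h3 (by omega)
  · rw [Nat.card_Ico]
    omega

/-- **the leaf of the random windows**: equal sizes of the windows, any quotient of the units -/
theorem v_leafB {m : ℕ} (hm : 0 < m) (k : ℕ) : ∃ l0 : ℕ, ∀ l l' : ℕ, l0 ≤ l' → l' ≤ l →
    bL m k l' = bL m k l → Un m k l' ∣ Un m k l →
    ∀ K : Finset Key, BKb m k l K → BKb m k l' K →
    PrLe (Mk m k) K (fun w => ∃ n, 310 * SS m (bL m k l) < (vprs m k l l' w n).card)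
      (2 * Real.exp (-(SS m (bL m k l) : ℝ))) := by
  classical
  obtain ⟨l1, h1⟩ := reps_one hm k
  obtain ⟨l2, h2⟩ := bot_win hm k 16 (by norm_num)
  refine ⟨l1 + l2, fun l l' hl' hll hb hU K hK hK' => ?_⟩
  have hM0 : 0 < Un m k l' := Pool.Agent.Helper27.T5b.Un_pos m k l'
  have hS0 := SS_ge hm (bL m k l)
  have hS1 : 1 ≤ SS m (bL m k l) := SS_pos m _
  rcases Nat.eq_or_lt_of_le hll with h0 | h0
  · -- one state
    subst h0
    refine PrLe_mono (fun r _ hw => ?_) le_rfl (h1 l' (by omega) K hK)
    obtain ⟨n, hn⟩ := hw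
    refine ⟨n / Un m k l', lt_of_lt_of_le (lt_of_le_of_lt ?_ hn) (card_le_card ?_)⟩
    · exact Nat.mul_le_mul_right _ (by norm_num)
    · intro q hq
      unfold vprs at hq
      rw [mem_filter, mem_product] at hq
      unfold reps
      rw [mem_filter, mem_product]
      refine ⟨hq.1, ?_⟩
      have h4 : n = Un m k l' * (q.1 + q.2) := by
        rw [← hq.2]
        ring
      rw [h4, Nat.mul_div_cancel_left _ hM0]
  · obtain ⟨q, hq⟩ := hU
    have hq0 : 0 < q := by
      rcases Nat.eq_zero_or_pos q with h | h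
      · have := Pool.Agent.Helper27.T5b.Un_pos m k l
        rw [hq, h] at this
        omega
      · exact h
    by_cases hqR : q ≤ RT m k (bL m k l)
    · set A := AQ m (bL m k l) with hA
      have hA48 := AQ_ge hm (bL m k l)
      rw [← hA] at hA48
      have hR := RT_le_AQ hm k (bL m k l)
      rw [← hA] at hR
      have hbot := h2 l l' (by omega) h0 hb K hK hK' (q := q) (D := 1) (I := 1)
        (M := Un m k l') hM0 hq0 one_pos (by omega) hqR (by
          have : (1 : ℝ) ≤ Real.sqrt q := by
            rw [Real.one_le_sqrt]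
            exact_mod_cast hq0
          push_cast
          linarith)
        (C := ℕ) (range (A ^ 9)) (fun _ _ => 0) (fun _ => 0) (fun x => x) (κ₀ := 1) (c := 9)
        (fun c _ x => (card_filter_le _ _).trans (by simp)) (by rw [card_range])
      refine PrLe_mono (fun r _ hw => ?_) le_rfl hbot
      obtain ⟨n, hn⟩ := hw
      have hne : (vprs m k l l' (ext K r) n).Nonempty := by
        rw [← card_pos]
        omega
      obtain ⟨x, hx⟩ := hne
      unfold vprs at hx
      rw [mem_filter, mem_product] at hx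
      obtain ⟨⟨hx1, hx2⟩, hx3⟩ := hx
      have hform : ∀ x y : ℕ, Un m k l * x + Un m k l' * y = Un m k l' * (q * x + y) := by
        intro x y
        rw [hq]
        ring
      have hnN : n / Un m k l' = q * x.1 + x.2 := by
        rw [← hx3, hform, Nat.mul_div_cancel_left _ hM0]
      have hx1' := (mem_Vw_lt hx1).2
      have hx2' := (mem_Vw_lt hx2).2
      rw [hb] at hx2'
      refine ⟨n / Un m k l', ?_, ?_⟩
      · rw [mem_range, hnN]
        have e1 : q * x.1 + x.2 ≤ A ^ 4 * (16 * A ^ 4) + 16 * A ^ 4 := by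
          have a1 : q ≤ A ^ 4 := hqR.trans hR
          have a2 : x.1 ≤ 16 * A ^ 4 := hx1'.le.trans (Nat.mul_le_mul_left _ hR)
          have a3 : x.2 ≤ 16 * A ^ 4 := hx2'.le.trans (Nat.mul_le_mul_left _ hR)
          exact Nat.add_le_add (Nat.mul_le_mul a1 a2) a3
        have hA100 : 100 ≤ A := le_trans (by norm_num) hA48
        have e2 : A ^ 4 * (16 * A ^ 4) + 16 * A ^ 4 < A ^ 9 := by
          have a1 : A ^ 4 * 1 ≤ A ^ 4 * A ^ 4 :=
            Nat.mul_le_mul_left _ (Nat.one_le_pow _ _ (by omega))
          have a2 : A ^ 4 * A ^ 4 * 100 ≤ A ^ 4 * A ^ 4 * A := Nat.mul_le_mul_left _ hA100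
          have a3 : A ^ 9 = A ^ 4 * A ^ 4 * A := by ring
          have a4 : 0 < A ^ 4 * A ^ 4 := by positivity
          have a5 : A ^ 4 * (16 * A ^ 4) = 16 * (A ^ 4 * A ^ 4) := by ring
          rw [a3, a5]
          generalize A ^ 4 * A ^ 4 = X at *
          generalize A ^ 4 = Y at *
          omega
        omega
      · refine lt_of_lt_of_le (lt_of_eq_of_lt (by ring) hn) ?_
        unfold cN
        refine card_le_card_of_injOn
          (fun x => (0, (Un m k l' * (q * x.1), Un m k l' * x.2))) ?_ ?_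
        · intro y hy
          unfold vprs at hy
          rw [mem_coe, mem_filter, mem_product] at hy
          obtain ⟨⟨a1, a2⟩, a3⟩ := hy
          rw [mem_coe, mem_filter, mem_product, mem_product]
          simp only [mem_range, Nat.lt_one_iff, true_and]
          refine ⟨⟨mem_image_of_mem _ a1, mem_image_of_mem _ a2⟩, ?_⟩
          have h4 : n = Un m k l' * (q * y.1 + y.2) := by rw [← a3, hform]
          rw [h4, Nat.mul_div_cancel_left _ hM0]
          simp
          ring
        · intro y _ y' _ h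
          simp only [Prod.mk.injEq, true_and] at h
          have b1 := Nat.eq_of_mul_eq_mul_left hq0 (Nat.eq_of_mul_eq_mul_left hM0 h.1)
          have b2 := Nat.eq_of_mul_eq_mul_left hM0 h.2
          exact Prod.ext b1 b2
    · -- large quotient
      refine PrLe_mono (B := fun _ => False) (ε := 0) (fun r _ hw => ?_) ?_ ?_
      · obtain ⟨n, hn⟩ := hw
        have h6 := vprs_det (ext K r) n hq (by rw [hb]; omega)
        omega
      · exact (by positivity : (0 : ℝ) ≤ 2 * Real.exp (-(SS m (bL m k l) : ℝ)))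
      · unfold PrLe
        simp

end Pool.Agent.Helper57.T5b
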