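import Pool.Agent.Helper57.T5b.Nb8

/-!
# T5b (MP_12a1af): pairs of elements of inner windows, arbitrary outer keys, also across SPLIT
-/

set_option autoImplicit false

namespace Pool.Agent.Helper57.T5b

open Finset Pool.Agent.Helper27.T4 Pool.Agent.Helper37.T5b
open Pool.Agent.Helper5.ET (bb era)
open Pool.Agent.Helper30.T5b (RT NL BP RT_pos ez pz)
open Pool.Agent.Helper84.T5b Pool.Agent.Helper57.T5 Pool.Agent.Helper42.T5.Pr
open Pool.Agent.Helper83.T5b (CB CB_pos leaf_count dec_gen)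

/-- **pairs of elements of inner windows against pairs of elements of the random windows**; the
levels `i, i + 1, ...` of `l` and `i', i' + 1, ...` of `l'` belong to the same triples; the outer
keys are arbitrary -/
theorem zpairs_gen {m k l l' i i' R : ℕ} (hm : 0 < m) (hsi : sL m k l - i = sL m k l' - i')
    (hi : i ≤ rL m k l) (hi' : i' ≤ rL m k l') (hr : rL m k l - i = rL m k l' - i') (w : Key → ℕ)
    (o o' : ℕ → JF → ℕ) (Z Z' : Finset ℕ)
    (hZ : ∀ u ∈ Z, ∃ y : ℕ → Fin 3 → ℕ, (∀ t, i ≤ t → t < rL m k l → y t ∈ Ys m k l t) ∧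
      ∃ v ∈ Vw m k l w, u = ∑ t ∈ Ico i (rL m k l), cs m k l t w (o t) (y t) + Un m k l * v)
    (hZ' : ∀ u ∈ Z', ∃ y : ℕ → Fin 3 → ℕ, (∀ t, i' ≤ t → t < rL m k l' → y t ∈ Ys m k l' t) ∧
      ∃ v ∈ Vw m k l' w,
        u = ∑ t ∈ Ico i' (rL m k l'), cs m k l' t w (o' t) (y t) + Un m k l' * v)
    (hR : ∀ n, (vprs m k l l' w n).card ≤ R) (n : ℕ) :
    ((Z ×ˢ Z').filter (fun q => q.1 + q.2 = n)).card ≤ CB k ^ (rL m k l - i) * R := by
  classical
  obtain ⟨g1, g2, g3, g4, g5, g6⟩ := Pool.Agent.Helper27.T5b.rL_bounds hm k l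
  obtain ⟨g1', g2', g3', g4', g5', g6'⟩ := Pool.Agent.Helper27.T5b.rL_bounds hm k l'
  have hQQ : ∀ t, QQ m k (sL m k l) (i + t) = QQ m k (sL m k l') (i' + t) := by
    intro t
    unfold QQ
    congr 1
    omega
  -- representations
  have hrep : ∀ u, ∃ yv : (ℕ → Fin 3 → ℕ) × ℕ, u ∈ Z →
      (∀ t, i ≤ t → t < rL m k l → yv.1 t ∈ Ys m k l t) ∧ yv.2 ∈ Vw m k l w ∧
      u = ∑ t ∈ Ico i (rL m k l), cs m k l t w (o t) (yv.1 t) + Un m k l * yv.2 := by
    intro u
    by_cases hu : u ∈ Z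
    · obtain ⟨y, hy, v, hv, e⟩ := hZ u hu
      exact ⟨(y, v), fun _ => ⟨hy, hv, e⟩⟩
    · exact ⟨(fun _ => 0, 0), fun h => absurd h hu⟩
  have hrep' : ∀ u, ∃ yv : (ℕ → Fin 3 → ℕ) × ℕ, u ∈ Z' →
      (∀ t, i' ≤ t → t < rL m k l' → yv.1 t ∈ Ys m k l' t) ∧ yv.2 ∈ Vw m k l' w ∧
      u = ∑ t ∈ Ico i' (rL m k l'), cs m k l' t w (o' t) (yv.1 t) + Un m k l' * yv.2 := by
    intro u
    by_cases hu : u ∈ Z'
    · obtain ⟨y, hy, v, hv, e⟩ := hZ' u hu
      exact ⟨(y, v), fun _ => ⟨hy, hv, e⟩⟩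
    · exact ⟨(fun _ => 0, 0), fun h => absurd h hu⟩
  choose f hf using hrep
  choose f' hf' using hrep'
  set S := (Z ×ˢ Z').filter (fun q => q.1 + q.2 = n) with hS
  have hSm : ∀ q ∈ S, (q.1 ∈ Z ∧ q.2 ∈ Z') ∧ q.1 + q.2 = n := by
    intro q hq
    rw [hS, mem_filter, mem_product] at hq
    exact hq
  have key : ∀ g : ℕ → ℕ, ∑ t ∈ Ico i (rL m k l), g t =
      ∑ t : Fin (rL m k l - i), g (i + t) := by
    intro g
    rw [Finset.sum_Ico_eq_sum_range, ← Fin.sum_univ_eq_sum_range (fun j => g (i + j))]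
  have key' : ∀ g : ℕ → ℕ, ∑ t ∈ Ico i' (rL m k l'), g t =
      ∑ t : Fin (rL m k l - i), g (i' + t) := by
    intro g
    rw [Finset.sum_Ico_eq_sum_range, ← hr, ← Fin.sum_univ_eq_sum_range (fun j => g (i' + j))]
  have hcs : ∀ t y, LL (fun u => QQ m k (sL m k l) (i + u)) t ∣ cs m k l (i + t) w (o (i + t)) y :=
    fun t y => (LL_shift_dvd (QQ m k (sL m k l)) i t).trans ((dvd_mul_left _ _).trans
      (Pool.Agent.Helper48.T5b.cs_dvd m k l (i + t) w (o (i + t)) y))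
  have hfun : (fun u => QQ m k (sL m k l) (i + u)) = fun u => QQ m k (sL m k l') (i' + u) :=
    funext hQQ
  have hcs' : ∀ t y, LL (fun u => QQ m k (sL m k l) (i + u)) t ∣
      cs m k l' (i' + t) w (o' (i' + t)) y := fun t y => by
    rw [hfun]
    exact (LL_shift_dvd (QQ m k (sL m k l')) i' t).trans ((dvd_mul_left _ _).trans
      (Pool.Agent.Helper48.T5b.cs_dvd m k l' (i' + t) w (o' (i' + t)) y))
  refine (leaf_count S (rL m k l - i)
    (fun t => Ys m k l (i + t) ×ˢ Ys m k l' (i' + t))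
    (fun t y => cs m k l (i + t) w (o (i + t)) y.1 + cs m k l' (i' + t) w (o' (i' + t)) y.2)
    (fun t => QQ m k (sL m k l) (i + t)) (fun _ => CB k) ?_ ?_
    (fun q t => ((f q.1).1 (i + t), (f' q.2).1 (i' + t))) ?_ 0 n
    (fun q => Un m k l * (f q.1).2) (fun q => Un m k l' * (f' q.2).2) ?_ ?_ ?_ R ?_).trans ?_
  · intro t _ y _
    exact dvd_add (hcs _ _) (hcs' _ _)
  · intro t ht T
    exact dec_gen hm (by omega) (by omega) (by omega) w _ _ T
  · intro q hq t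
    obtain ⟨⟨h1, h2⟩, -⟩ := hSm q hq
    have ht := t.2
    refine mem_product.2 ⟨(hf _ h1).1 _ (by omega) (by omega), ?_⟩
    exact (hf' _ h2).1 _ (by omega) (by omega)
  · intro q _
    have h1 := LL_shift_dvd (QQ m k (sL m k l)) i (rL m k l - i)
    rw [Nat.add_sub_cancel' hi] at h1
    exact h1.trans ((dvd_mul_left _ _).mul_right _)
  · intro q _
    rw [hfun, hr]
    have h1 := LL_shift_dvd (QQ m k (sL m k l')) i' (rL m k l' - i')
    rw [Nat.add_sub_cancel' hi'] at h1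
    exact h1.trans ((dvd_mul_left _ _).mul_right _)
  · intro q hq
    obtain ⟨⟨h1, h2⟩, h3⟩ := hSm q hq
    have e1 := (hf _ h1).2.2
    have e2 := (hf' _ h2).2.2
    rw [key'] at e2
    rw [key] at e1
    rw [zero_add, Finset.sum_add_distrib]
    simp only
    omega
  · intro z N
    refine le_trans (card_le_card_of_injOn (fun q => ((f q.1).2, (f' q.2).2)) ?_ ?_) (hR N)
    · intro q hq
      rw [mem_coe, mem_filter] at hq
      obtain ⟨⟨h1, h2⟩, h3⟩ := hSm q hq.1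
      rw [mem_coe]
      unfold vprs
      rw [mem_filter, mem_product]
      exact ⟨⟨(hf _ h1).2.1, (hf' _ h2).2.1⟩, hq.2.2⟩
    · intro q hq p hp h
      rw [mem_coe, mem_filter] at hq hp
      obtain ⟨⟨h1, h2⟩, -⟩ := hSm q hq.1
      obtain ⟨⟨p1, p2⟩, -⟩ := hSm p hp.1
      simp only [Prod.mk.injEq] at h
      have hlab := hq.2.1.trans hp.2.1.symm
      have e1 := (hf _ h1).2.2
      have e2 := (hf' _ h2).2.2
      have e3 := (hf _ p1).2.2
      have e4 := (hf' _ p2).2.2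
      rw [key'] at e2 e4
      rw [key] at e1 e3
      have a1 : ∀ t : Fin (rL m k l - i), (f q.1).1 (i + t) = (f p.1).1 (i + t) := fun t =>
        congrArg Prod.fst (congrFun hlab t)
      have a2 : ∀ t : Fin (rL m k l - i), (f' q.2).1 (i' + t) = (f' p.2).1 (i' + t) := fun t =>
        congrArg Prod.snd (congrFun hlab t)
      refine Prod.ext ?_ ?_
      · rw [e1, e3, h.1]
        simp only [a1]
      · rw [e2, e4, h.2]
        simp only [a2]
  · rw [prod_const, card_range]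

/-- the event: few pairs of elements of the random windows, same dropped levels -/
theorem vprs_late {m : ℕ} (hm : 0 < m) (k : ℕ) : ∃ l0 : ℕ, ∀ l l' : ℕ, l0 ≤ l' → l' ≤ l →
    bL m k l' = bL m k l → ∀ K : Finset Key, keysOf m k l ⊆ K → keysOf m k l' ⊆ K →
    PrLe (Mk m k) K (fun w => ¬ ∀ n, (vprs m k l l' w n).card ≤ 310 * SS m (bL m k l))
      (2 * Real.exp (-(SS m (bL m k l) : ℝ))) := by
  obtain ⟨l1, h1⟩ := v_leafB hm k
  obtain ⟨l2, h2⟩ := Pool.Agent.Helper27.T5b.exists_bL hm k 0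
  refine ⟨l1 + l2, fun l l' hl' hll hb K hK hK' => ?_⟩
  have hb1 := (h2 l (by omega)).1
  have hb2 := (h2 l' (by omega)).1
  refine PrLe_mono (fun r _ hw => ?_) le_rfl (h1 l l' (by omega) hll hb (Un_dvd hm hll hb hb2) K
    (BKb_of hm hb1 hK) (BKb_of hm hb2 hK'))
  simp only [not_forall, not_le] at hw
  exact hw

end Pool.Agent.Helper57.T5b
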